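import Pool.Agent.Helper72.RA.Defs

set_option autoImplicit false

namespace Pool.Agent.Helper72.RA

open Real Finset MeasureTheory Filter

open scoped Classical

theorem st_EXT : ST_EXT := by
  intro S T _ _ hST Z R M f hZR hinj hZM hRM
  obtain ⟨g, hg⟩ : ∃ g : S → T, (∀ r ∈ R, g r ∈ M) ∧ Set.InjOn g R := by
    obtain ⟨M', hM'M, hM'⟩ := Finset.exists_subset_card_eq hRM
    have e : R ≃ M' := Finset.equivOfCardEq hM'.symm
    refine ⟨fun r => if h : r ∈ R then (e ⟨r, h⟩ : T) else f r, ?_, ?_⟩
    · intro r hr
      simp only [hr, dif_pos]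
      exact hM'M (e ⟨r, hr⟩).2
    · intro r hr r' hr' h
      have hr : r ∈ R := hr
      have hr' : r' ∈ R := hr'
      simp only [hr, hr', dif_pos] at h
      have := e.injective (Subtype.ext h)
      exact congrArg Subtype.val this
  obtain ⟨hgM, hginj⟩ := hg
  have hF : Set.InjOn (fun x => if x ∈ Z then f x else g x) ((Z ∪ R : Finset S) : Set S) := by
    intro x hx y hy hxy
    have hx : x ∈ Z ∪ R := hx
    have hy : y ∈ Z ∪ R := hy
    simp only at hxy
    by_cases h1 : x ∈ Z <;> by_cases h2 : y ∈ Z
    · rw [if_pos h1, if_pos h2] at hxy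
      exact hinj h1 h2 hxy
    · rw [if_pos h1, if_neg h2] at hxy
      have hyR : y ∈ R := (Finset.mem_union.1 hy).resolve_left h2
      exact absurd (hxy ▸ hgM y hyR) (hZM x h1)
    · rw [if_neg h1, if_pos h2] at hxy
      have hxR : x ∈ R := (Finset.mem_union.1 hx).resolve_left h1
      exact absurd (hxy ▸ hgM x hxR) (hZM y h2)
    · rw [if_neg h1, if_neg h2] at hxy
      exact hginj ((Finset.mem_union.1 hx).resolve_left h1)
        ((Finset.mem_union.1 hy).resolve_left h2) hxy
  obtain ⟨F, hF'⟩ := Finset.exists_equiv_extend_of_card_eq (t := (univ : Finset T))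
    (by simpa using hST) (Finset.subset_univ _) hF
  refine ⟨F.trans (Equiv.subtypeUnivEquiv (by simp)), ?_, ?_⟩
  · intro z hz
    have := hF' z (Finset.mem_union_left _ hz)
    simp only [hz, if_true] at this
    simpa using this
  · intro r hr
    have hrZ : r ∉ Z := fun h => (Finset.disjoint_left.1 hZR h) hr
    have := hF' r (Finset.mem_union_right _ hr)
    simp only [hrZ, if_false] at this
    have h2 : (F.trans (Equiv.subtypeUnivEquiv (by simp))) r = g r := by simpa using this
    rw [h2]
    exact hgM r hr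

end Pool.Agent.Helper72.RA
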