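import Pool.Agent.Helper72.RA.Defs

set_option autoImplicit false

namespace Pool.Agent.Helper72.RA

open Real Finset MeasureTheory Filter

open scoped Classical

theorem family_qi_pos {q : ℕ} (hq : 0 < q) (k : ℕ) : 0 < qi q k := by
  unfold qi; positivity

theorem family_qi_mul {q : ℕ} (hq : 0 < q) (a b : ℕ) : (q : ℝ) ^ a * qi q (a + b) = qi q b := by
  unfold qi
  have : (q : ℝ) ≠ 0 := by positivity
  rw [pow_add]
  field_simp

theorem family_qi_le {q : ℕ} (hq : 0 < q) {a b : ℕ} (h : a ≤ b) : qi q b ≤ qi q a := by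
  unfold qi
  apply inv_anti₀ (by positivity)
  exact pow_le_pow_right₀ (by exact_mod_cast hq) h

theorem family_sqrt_sub {a b η : ℝ} (hb : 1 ≤ b) (h : |a - b| ≤ η) (hη : η ≤ 1) :
    |√a - √b| ≤ η := by
  have h1 : 1 ≤ √b := by rw [Real.one_le_sqrt]; exact hb
  have ha0 : 0 ≤ a := by
    have := abs_le.1 h
    linarith
  have h2 : (√a - √b) * (√a + √b) = a - b := by
    have h3 := Real.sq_sqrt ha0
    have h4 := Real.sq_sqrt (show 0 ≤ b by linarith)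
    nlinarith
  have h5 : 0 ≤ √a := Real.sqrt_nonneg a
  have h6 : |√a - √b| * (√a + √b) = |a - b| := by
    rw [← h2, abs_mul, abs_of_nonneg (show 0 ≤ √a + √b by linarith)]
  have h7 : |√a - √b| * 1 ≤ |√a - √b| * (√a + √b) :=
    mul_le_mul_of_nonneg_left (by linarith) (abs_nonneg _)
  linarith

/-- nominal value -/
noncomputable def familyNom (θ e si sk r : ℝ) : ℝ :=
  cos θ * (√(e ^ 2 + si ^ 2 + r ^ 2) * √(e ^ 2 + sk ^ 2 + r ^ 2)) + e ^ 2 - r ^ 2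

theorem family_sqrt_le {e s r R : ℝ} (hR : 4 ≤ R) (he : |e| ≤ R) (hr0 : 0 ≤ r) (hr : r ≤ R)
    (hs0 : 99 / 100 ≤ s) (hs1 : s ≤ 301 / 100) : √(e ^ 2 + s ^ 2 + r ^ 2) ≤ 2 * R := by
  rw [Real.sqrt_le_left (by linarith)]
  have h1 : e ^ 2 ≤ R ^ 2 := by
    rw [← sq_abs e]
    exact pow_le_pow_left₀ (abs_nonneg _) he 2
  have h2 : r ^ 2 ≤ R ^ 2 := pow_le_pow_left₀ hr0 hr 2
  nlinarith

theorem family_prod_sub {a b a0 b0 η U V : ℝ} (ha : |a - a0| ≤ η) (hb : |b - b0| ≤ η)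
    (hbU : |b| ≤ U) (haV : |a0| ≤ V) : |a * b - a0 * b0| ≤ η * U + V * η := by
  have h : a * b - a0 * b0 = (a - a0) * b + a0 * (b - b0) := by ring
  have hη : 0 ≤ η := le_trans (abs_nonneg _) ha
  calc |a * b - a0 * b0| = |(a - a0) * b + a0 * (b - b0)| := by rw [h]
    _ ≤ |(a - a0) * b| + |a0 * (b - b0)| := abs_add_le _ _
    _ = |a - a0| * |b| + |a0| * |b - b0| := by rw [abs_mul, abs_mul]
    _ ≤ η * U + V * η := by
        apply add_le_add
        · exact mul_le_mul ha hbU (abs_nonneg _) hη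
        · exact mul_le_mul haV hb (abs_nonneg _) (le_trans (abs_nonneg _) haV)

theorem family_nom {θ e si sk r R ε δ1 δ2 δ3 n1 n2 : ℝ} (hR : 4 ≤ R) (he : |e| ≤ R)
    (hr0 : 0 ≤ r) (hr : r ≤ R)
    (hsi0 : 99 / 100 ≤ si) (hsi1 : si ≤ 301 / 100) (hsk0 : 99 / 100 ≤ sk)
    (hsk1 : sk ≤ 301 / 100) (hε : 11 * R * ε ≤ 1) (hr2 : 1 / 2 ≤ r)
    (h1 : |δ1| ≤ ε) (h2 : |δ2| ≤ ε) (h3 : |δ3| ≤ ε) (hn1 : |n1| ≤ ε) (hn2 : |n2| ≤ ε) :
    |(cos θ * (√((e + δ1) ^ 2 + si ^ 2 + (r + δ3) ^ 2 - 2 * si * (r + δ3) * n1) *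
      √((-e + δ2) ^ 2 + sk ^ 2 + (r + δ3) ^ 2 - 2 * sk * (r + δ3) * n2)) -
      (e + δ1) * (-e + δ2) - (r + δ3) ^ 2 + si * (r + δ3) * n1 + (r + δ3) * sk * n2) -
      familyNom θ e si sk r| ≤ 64 * R ^ 2 * ε := by
  have hε0 : 0 ≤ ε := le_trans (abs_nonneg _) h1
  have hε1 : ε ≤ 1 / 44 := by nlinarith
  have hRε : 0 ≤ R * ε := by positivity
  have key : ∀ {u δ s n : ℝ}, |u| ≤ R → |δ| ≤ ε → 99 / 100 ≤ s → s ≤ 301 / 100 → |n| ≤ ε →
      |((u + δ) ^ 2 + s ^ 2 + (r + δ3) ^ 2 - 2 * s * (r + δ3) * n) -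
        (u ^ 2 + s ^ 2 + r ^ 2)| ≤ 11 * R * ε := by
    intro u δ s n hu hδ hs0 hs1 hn
    have e1 : |u * δ| ≤ R * ε := by
      rw [abs_mul]; exact mul_le_mul hu hδ (abs_nonneg _) (by linarith)
    have e2 : |r * δ3| ≤ R * ε := by
      rw [abs_mul, abs_of_nonneg hr0]; exact mul_le_mul hr h3 (abs_nonneg _) (by linarith)
    have e3 : |δ * δ| ≤ ε * ε := by
      rw [abs_mul]; exact mul_le_mul hδ hδ (abs_nonneg _) (by linarith)
    have e4 : |δ3 * δ3| ≤ ε * ε := by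
      rw [abs_mul]; exact mul_le_mul h3 h3 (abs_nonneg _) (by linarith)
    have e5 : |s * (r + δ3) * n| ≤ 301 / 100 * (R + ε) * ε := by
      rw [abs_mul, abs_mul]
      apply mul_le_mul _ hn (abs_nonneg _) (by positivity)
      apply mul_le_mul _ _ (abs_nonneg _) (by positivity)
      · rw [abs_of_nonneg (by linarith)]; exact hs1
      · calc |r + δ3| ≤ |r| + |δ3| := abs_add_le _ _
          _ ≤ R + ε := by rw [abs_of_nonneg hr0]; linarith
    have : ((u + δ) ^ 2 + s ^ 2 + (r + δ3) ^ 2 - 2 * s * (r + δ3) * n) -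
        (u ^ 2 + s ^ 2 + r ^ 2) = 2 * (u * δ) + δ * δ + 2 * (r * δ3) + δ3 * δ3 -
          2 * (s * (r + δ3) * n) := by ring
    rw [this]
    have hεε : ε * ε ≤ R * ε / 100 := by nlinarith
    rw [abs_le] at e1 e2 e3 e4 e5 ⊢
    constructor
    · linarith [e1.1, e2.1, e3.1, e4.1, e5.2]
    · linarith [e1.2, e2.2, e3.2, e4.2, e5.1]
  have kA := key (u := e) he h1 hsi0 hsi1 hn1
  have kB := key (u := -e) (by rwa [abs_neg]) h2 hsk0 hsk1 hn2
  rw [neg_sq] at kB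
  set A := (e + δ1) ^ 2 + si ^ 2 + (r + δ3) ^ 2 - 2 * si * (r + δ3) * n1 with hA
  set B := (-e + δ2) ^ 2 + sk ^ 2 + (r + δ3) ^ 2 - 2 * sk * (r + δ3) * n2 with hB
  have hA0 : 1 ≤ e ^ 2 + si ^ 2 + r ^ 2 := by nlinarith [sq_nonneg e]
  have hB0 : 1 ≤ e ^ 2 + sk ^ 2 + r ^ 2 := by nlinarith [sq_nonneg e]
  have sA := family_sqrt_sub hA0 kA hε
  have sB := family_sqrt_sub hB0 kB hε
  have uA := family_sqrt_le hR he hr0 hr hsi0 hsi1
  have uB := family_sqrt_le hR he hr0 hr hsk0 hsk1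
  have uB' : |√B| ≤ 2 * R + 1 := by
    rw [abs_of_nonneg (Real.sqrt_nonneg _)]
    have := (abs_le.1 sB).2
    linarith
  have uA' : |√(e ^ 2 + si ^ 2 + r ^ 2)| ≤ 2 * R := by
    rwa [abs_of_nonneg (Real.sqrt_nonneg _)]
  have hP := family_prod_sub sA sB uB' uA'
  have hcos : |cos θ * (√A * √B) - cos θ * (√(e ^ 2 + si ^ 2 + r ^ 2) * √(e ^ 2 + sk ^ 2 + r ^ 2))|
      ≤ 11 * R * ε * (2 * R + 1) + 2 * R * (11 * R * ε) := by
    rw [← mul_sub, abs_mul]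
    calc |cos θ| * _ ≤ 1 * |√A * √B - √(e ^ 2 + si ^ 2 + r ^ 2) * √(e ^ 2 + sk ^ 2 + r ^ 2)| :=
          mul_le_mul_of_nonneg_right (abs_cos_le_one θ) (abs_nonneg _)
      _ ≤ _ := by rw [one_mul]; exact hP
  have f1 : |e * δ1| ≤ R * ε := by
    rw [abs_mul]; exact mul_le_mul he h1 (abs_nonneg _) (by linarith)
  have f2 : |e * δ2| ≤ R * ε := by
    rw [abs_mul]; exact mul_le_mul he h2 (abs_nonneg _) (by linarith)
  have f3 : |δ1 * δ2| ≤ ε * ε := by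
    rw [abs_mul]; exact mul_le_mul h1 h2 (abs_nonneg _) (by linarith)
  have f4 : |r * δ3| ≤ R * ε := by
    rw [abs_mul, abs_of_nonneg hr0]; exact mul_le_mul hr h3 (abs_nonneg _) (by linarith)
  have f5 : |δ3 * δ3| ≤ ε * ε := by
    rw [abs_mul]; exact mul_le_mul h3 h3 (abs_nonneg _) (by linarith)
  have f6 : ∀ {s n : ℝ}, 99 / 100 ≤ s → s ≤ 301 / 100 → |n| ≤ ε →
      |s * (r + δ3) * n| ≤ 301 / 100 * (R + ε) * ε := by
    intro s n hs0 hs1 hn
    rw [abs_mul, abs_mul]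
    apply mul_le_mul _ hn (abs_nonneg _) (by positivity)
    apply mul_le_mul _ _ (abs_nonneg _) (by positivity)
    · rw [abs_of_nonneg (by linarith)]; exact hs1
    · calc |r + δ3| ≤ |r| + |δ3| := abs_add_le _ _
        _ ≤ R + ε := by rw [abs_of_nonneg hr0]; linarith
  have f7 := f6 hsi0 hsi1 hn1
  have f8 := f6 hsk0 hsk1 hn2
  have hsum : (cos θ * (√A * √B) -
      (e + δ1) * (-e + δ2) - (r + δ3) ^ 2 + si * (r + δ3) * n1 + (r + δ3) * sk * n2) -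
      familyNom θ e si sk r =
      (cos θ * (√A * √B) - cos θ * (√(e ^ 2 + si ^ 2 + r ^ 2) * √(e ^ 2 + sk ^ 2 + r ^ 2))) +
        (- (e * δ2) + e * δ1 - δ1 * δ2) + (- 2 * (r * δ3) - δ3 * δ3) + si * (r + δ3) * n1 +
        sk * (r + δ3) * n2 := by
    unfold familyNom; ring
  rw [hsum]
  rw [abs_le] at hcos f1 f2 f3 f4 f5 f7 f8 ⊢
  have g1 : ε * ε ≤ R * ε / 100 := by nlinarith
  have g2 : R * ε ≤ R ^ 2 * ε / 4 := by nlinarith
  constructor
  · linarith [hcos.1, f1.1, f2.2, f3.2, f4.2, f5.2, f7.1, f8.1]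
  · linarith [hcos.2, f1.2, f2.1, f3.1, f4.1, f5.1, f7.2, f8.2]

theorem family_sqrt_lip {w r d : ℝ} (hw : 0 ≤ w) (hr : 0 ≤ r) (hd : 0 ≤ d) :
    |√(w + (r + d) ^ 2) - √(w + r ^ 2)| ≤ d := by
  have h0 : √(w + r ^ 2) ≤ √(w + (r + d) ^ 2) := by
    apply Real.sqrt_le_sqrt
    nlinarith
  rw [abs_of_nonneg (by linarith)]
  have h1 : r ≤ √(w + r ^ 2) := Real.le_sqrt_of_sq_le (by linarith)
  have h2 : √(w + (r + d) ^ 2) ≤ √(w + r ^ 2) + d := by
    rw [Real.sqrt_le_left (by positivity)]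
    have h3 := Real.sq_sqrt (show 0 ≤ w + r ^ 2 by positivity)
    nlinarith
  linarith

theorem family_lip {θ e si sk r R d : ℝ} (hR : 4 ≤ R) (he : |e| ≤ R)
    (hr0 : 0 ≤ r) (hd : 0 ≤ d) (hr : r + d ≤ R)
    (hsi0 : 99 / 100 ≤ si) (hsi1 : si ≤ 301 / 100) (hsk0 : 99 / 100 ≤ sk)
    (hsk1 : sk ≤ 301 / 100) :
    |familyNom θ e si sk (r + d) - familyNom θ e si sk r| ≤ 6 * R * d := by
  have lA := family_sqrt_lip (w := e ^ 2 + si ^ 2) (by positivity) hr0 hd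
  have lB := family_sqrt_lip (w := e ^ 2 + sk ^ 2) (by positivity) hr0 hd
  have uA := family_sqrt_le hR he hr0 (by linarith) hsi0 hsi1
  have uB := family_sqrt_le hR he (by linarith) hr hsk0 hsk1
  have hP := family_prod_sub (U := 2 * R) (V := 2 * R) lA lB
    (by rwa [abs_of_nonneg (Real.sqrt_nonneg _)])
    (by rwa [abs_of_nonneg (Real.sqrt_nonneg _)])
  have hcos : |cos θ * (√(e ^ 2 + si ^ 2 + (r + d) ^ 2) * √(e ^ 2 + sk ^ 2 + (r + d) ^ 2)) -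
      cos θ * (√(e ^ 2 + si ^ 2 + r ^ 2) * √(e ^ 2 + sk ^ 2 + r ^ 2))|
      ≤ d * (2 * R) + 2 * R * d := by
    rw [← mul_sub, abs_mul]
    calc |cos θ| * _ ≤ 1 * |√(e ^ 2 + si ^ 2 + (r + d) ^ 2) * √(e ^ 2 + sk ^ 2 + (r + d) ^ 2) -
          √(e ^ 2 + si ^ 2 + r ^ 2) * √(e ^ 2 + sk ^ 2 + r ^ 2)| :=
          mul_le_mul_of_nonneg_right (abs_cos_le_one θ) (abs_nonneg _)
      _ ≤ _ := by rw [one_mul]; exact hP
  have hsum : familyNom θ e si sk (r + d) - familyNom θ e si sk r =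
      (cos θ * (√(e ^ 2 + si ^ 2 + (r + d) ^ 2) * √(e ^ 2 + sk ^ 2 + (r + d) ^ 2)) -
      cos θ * (√(e ^ 2 + si ^ 2 + r ^ 2) * √(e ^ 2 + sk ^ 2 + r ^ 2))) - (2 * r + d) * d := by
    unfold familyNom; ring
  rw [hsum]
  have h1 : (2 * r + d) * d ≤ 2 * R * d := mul_le_mul_of_nonneg_right (by linarith) hd
  have h2 : 0 ≤ (2 * r + d) * d := by positivity
  rw [abs_le] at hcos ⊢
  constructor
  · linarith [hcos.1]
  · linarith [hcos.2]

/-- discrete intermediate value theorem -/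
theorem family_ivt (N : ℕ → ℝ) (L : ℕ) (δ : ℝ) (h0 : 0 ≤ N 0) (hL : N L < 0)
    (hstep : ∀ l < L, |N (l + 1) - N l| ≤ δ) :
    ∃ l ≤ L, ∃ l' ≤ L, 0 ≤ N l ∧ N l ≤ δ ∧ -δ ≤ N l' ∧ N l' ≤ 0 := by
  classical
  have hex : ∃ l, N l < 0 := ⟨L, hL⟩
  set l := Nat.find hex with hl
  have h1 : N l < 0 := Nat.find_spec hex
  have h2 : l ≤ L := Nat.find_min' hex hL
  have h3 : l ≠ 0 := by
    intro h
    rw [h] at h1
    linarith
  obtain ⟨k, hk⟩ : ∃ k, l = k + 1 := ⟨l - 1, by omega⟩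
  have h4 : ¬ N k < 0 := Nat.find_min hex (by omega)
  have h5 := abs_le.1 (hstep k (by omega))
  rw [hk] at h1 h2
  exact ⟨k, by omega, k + 1, h2, by linarith, by linarith, by linarith, h1.le⟩

theorem family_amgm {a b : ℝ} (ha : 0 ≤ a) (hb : 0 ≤ b) : √a * √b ≤ (a + b) / 2 := by
  nlinarith [Real.sq_sqrt ha, Real.sq_sqrt hb, sq_nonneg (√a - √b)]

theorem family_prod_ge {a b m : ℝ} (hm : 0 ≤ m) (ha : m ≤ a) (hb : m ≤ b) : m ≤ √a * √b := by
  rw [← Real.sqrt_mul (by linarith)]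
  apply Real.le_sqrt_of_sq_le
  nlinarith

theorem family_cos_le {x : ℝ} (hx0 : 0 ≤ x) (hx : x ≤ π) : cos x ≤ 1 - 1 / 5 * x ^ 2 := by
  have h := Real.cos_le_one_sub_mul_cos_sq (x := x) (by rwa [abs_of_nonneg hx0])
  have hpi : π ^ 2 ≤ 10 := by
    have := Real.pi_lt_d2
    nlinarith [Real.pi_pos]
  have h2 : 1 / 5 ≤ 2 / π ^ 2 := by
    rw [div_le_div_iff₀ (by norm_num) (by positivity)]
    linarith
  nlinarith [sq_nonneg x]

theorem family_cos136 : (208 : ℝ) / 1000 ≤ cos (136 / 100) := by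
  have h : cos (136 / 100 : ℝ) = sin (π / 2 - 136 / 100) := by
    rw [Real.sin_pi_div_two_sub]
  rw [h]
  have h1 := Real.pi_gt_d4
  have h2 := Real.pi_lt_d4
  have h3 : (0.2107 : ℝ) ≤ π / 2 - 136 / 100 := by norm_num at *; linarith
  have h4 : sin (0.2107 : ℝ) ≤ sin (π / 2 - 136 / 100) := by
    apply Real.sin_le_sin_of_le_of_le_pi_div_two
    · linarith [Real.pi_pos]
    · linarith
    · exact h3
  have h5 := Real.sin_gt_sub_cube (x := (0.2107 : ℝ)) (by norm_num)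
  norm_num at h5 h4 ⊢
  linarith

theorem family_sign0 {q : ℕ} (hq : 1000 ≤ (q : ℝ)) {θ e si sk : ℝ}
    (hsi0 : 99 / 100 ≤ si) (hsi1 : si ≤ 301 / 100) (hsk0 : 99 / 100 ≤ sk)
    (hsk1 : sk ≤ 301 / 100)
    (hθ : 15 / 100 ≤ θ ∧ θ ≤ 136 / 100 ∨
      (q : ℝ) ^ 10 / 2 ≤ |e| ∧ |e| ≤ (q : ℝ) ^ 10 ∧ qi q 9 ≤ θ ∧ θ ≤ π - qi q 9) :
    1 / 1000 ≤ familyNom θ e si sk (1 / 2) := by
  have hqn : 0 < q := by
    have : (0 : ℝ) < q := by linarith
    exact_mod_cast this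
  unfold familyNom
  rcases hθ with ⟨h1, h2⟩ | ⟨h1, _, h3, h4⟩
  · have hc : 208 / 1000 ≤ cos θ := by
      refine le_trans family_cos136 ?_
      apply Real.cos_le_cos_of_nonneg_of_le_pi (by linarith) _ h2
      linarith [Real.pi_gt_three]
    have hm : e ^ 2 + 12301 / 10000 ≤ √(e ^ 2 + si ^ 2 + (1 / 2) ^ 2) *
        √(e ^ 2 + sk ^ 2 + (1 / 2) ^ 2) := by
      apply family_prod_ge (by positivity)
      · nlinarith
      · nlinarith
    have : 208 / 1000 * (e ^ 2 + 12301 / 10000) ≤ cos θ * (√(e ^ 2 + si ^ 2 + (1 / 2) ^ 2) *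
        √(e ^ 2 + sk ^ 2 + (1 / 2) ^ 2)) :=
      mul_le_mul hc hm (by positivity) (by linarith)
    nlinarith [sq_nonneg e]
  · have hq9 := family_qi_pos hqn 9
    have hc : cos (π - θ) ≤ 1 - 1 / 5 * (π - θ) ^ 2 := family_cos_le (by linarith) (by linarith)
    rw [Real.cos_pi_sub] at hc
    have h5 : qi q 9 ^ 2 ≤ (π - θ) ^ 2 := pow_le_pow_left₀ hq9.le (by linarith) 2
    set t : ℝ := qi q 9 ^ 2 with ht
    have ht0 : 0 < t := by positivity
    have ht1 : t ≤ 1 := by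
      have : qi q 9 ≤ 1 := by
        have := family_qi_le hqn (show 0 ≤ 9 by norm_num)
        simpa [qi] using this
      rw [ht]
      nlinarith
    have hc' : -(1 - 1 / 5 * t) ≤ cos θ := by linarith
    have hp := family_amgm (a := e ^ 2 + si ^ 2 + (1 / 2) ^ 2) (b := e ^ 2 + sk ^ 2 + (1 / 2) ^ 2)
      (by positivity) (by positivity)
    set P := √(e ^ 2 + si ^ 2 + (1 / 2) ^ 2) * √(e ^ 2 + sk ^ 2 + (1 / 2) ^ 2) with hP
    have hP0 : 0 ≤ P := by positivity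
    have hsi2 : si ^ 2 ≤ 90601 / 10000 := by nlinarith
    have hsk2 : sk ^ 2 ≤ 90601 / 10000 := by nlinarith
    have hP1 : P ≤ e ^ 2 + 93101 / 10000 := by linarith
    have h6 : -(1 - 1 / 5 * t) * P ≤ cos θ * P := mul_le_mul_of_nonneg_right hc' hP0
    have h7 : (1 - 1 / 5 * t) * P ≤ (1 - 1 / 5 * t) * (e ^ 2 + 93101 / 10000) :=
      mul_le_mul_of_nonneg_left hP1 (by linarith)
    have h8 : ((q : ℝ) ^ 10 / 2) ^ 2 ≤ e ^ 2 := by
      rw [← sq_abs e]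
      exact pow_le_pow_left₀ (by positivity) h1 2
    have h9 : t * ((q : ℝ) ^ 10 / 2) ^ 2 ≤ t * e ^ 2 := mul_le_mul_of_nonneg_left h8 ht0.le
    have h10 : t * ((q : ℝ) ^ 10 / 2) ^ 2 = (q : ℝ) ^ 2 / 4 := by
      rw [ht]
      unfold qi
      have : (q : ℝ) ≠ 0 := by positivity
      field_simp
      norm_num
    have h11 : (1000 : ℝ) ^ 2 ≤ (q : ℝ) ^ 2 := pow_le_pow_left₀ (by norm_num) hq 2
    nlinarith

theorem family_signL {q : ℕ} (hq : 1000 ≤ (q : ℝ)) {θ e si sk : ℝ}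
    (he : |e| ≤ (q : ℝ) ^ 21)
    (hsi0 : 99 / 100 ≤ si) (hsi1 : si ≤ 301 / 100) (hsk0 : 99 / 100 ≤ sk)
    (hsk1 : sk ≤ 301 / 100)
    (hθ : 15 / 100 ≤ θ ∧ θ ≤ 136 / 100 ∨
      (q : ℝ) ^ 10 / 2 ≤ |e| ∧ |e| ≤ (q : ℝ) ^ 10 ∧ qi q 9 ≤ θ ∧ θ ≤ π - qi q 9) :
    familyNom θ e si sk (1 / 2 + (q : ℝ) ^ 22) ≤ -1 := by
  have hqn : 0 < q := by
    have : (0 : ℝ) < q := by linarith
    exact_mod_cast this
  unfold familyNom
  set r : ℝ := 1 / 2 + (q : ℝ) ^ 22 with hr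
  have hp := family_amgm (a := e ^ 2 + si ^ 2 + r ^ 2) (b := e ^ 2 + sk ^ 2 + r ^ 2)
    (by positivity) (by positivity)
  set P := √(e ^ 2 + si ^ 2 + r ^ 2) * √(e ^ 2 + sk ^ 2 + r ^ 2) with hP
  have hP0 : 0 ≤ P := by positivity
  have hsi2 : si ^ 2 ≤ 90601 / 10000 := by nlinarith
  have hsk2 : sk ^ 2 ≤ 90601 / 10000 := by nlinarith
  have hP1 : P ≤ e ^ 2 + r ^ 2 + 90601 / 10000 := by linarith
  have hr44 : (q : ℝ) ^ 44 ≤ r ^ 2 := by
    have : (q : ℝ) ^ 44 = ((q : ℝ) ^ 22) ^ 2 := by rw [← pow_mul]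
    rw [this]
    apply pow_le_pow_left₀ (by positivity)
    rw [hr]; linarith
  rcases hθ with ⟨h1, h2⟩ | ⟨_, h2, h3, h4⟩
  · have hc : cos θ ≤ 9955 / 10000 := by
      have h5 := family_cos_le (x := θ) (by linarith) (by linarith [Real.pi_gt_three])
      nlinarith
    have h6 : cos θ * P ≤ 9955 / 10000 * (e ^ 2 + r ^ 2 + 90601 / 10000) := by
      calc cos θ * P ≤ 9955 / 10000 * P := mul_le_mul_of_nonneg_right hc hP0
        _ ≤ _ := mul_le_mul_of_nonneg_left hP1 (by norm_num)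
    have he2 : e ^ 2 ≤ (q : ℝ) ^ 42 := by
      have : (q : ℝ) ^ 42 = ((q : ℝ) ^ 21) ^ 2 := by rw [← pow_mul]
      rw [this, ← sq_abs e]
      exact pow_le_pow_left₀ (abs_nonneg _) he 2
    have h7 : (q : ℝ) ^ 44 = (q : ℝ) ^ 2 * (q : ℝ) ^ 42 := by rw [← pow_add]
    have h8 : (1000 : ℝ) ^ 2 ≤ (q : ℝ) ^ 2 := pow_le_pow_left₀ (by norm_num) hq 2
    have h9 : (1 : ℝ) ≤ (q : ℝ) ^ 42 := one_le_pow₀ (by linarith)
    have h10 : (1000 : ℝ) ^ 2 * (q : ℝ) ^ 42 ≤ (q : ℝ) ^ 44 := by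
      rw [h7]; exact mul_le_mul_of_nonneg_right h8 (by positivity)
    linarith
  · have hq9 := family_qi_pos hqn 9
    have hc : cos θ ≤ 1 - 1 / 5 * θ ^ 2 := family_cos_le (by linarith) (by linarith)
    have h5 : qi q 9 ^ 2 ≤ θ ^ 2 := pow_le_pow_left₀ hq9.le (by linarith) 2
    set t : ℝ := qi q 9 ^ 2 with ht
    have ht0 : 0 < t := by positivity
    have ht1 : t ≤ 1 := by
      have : qi q 9 ≤ 1 := by
        have := family_qi_le hqn (show 0 ≤ 9 by norm_num)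
        simpa [qi] using this
      rw [ht]
      nlinarith
    have hc' : cos θ ≤ 1 - 1 / 5 * t := by linarith
    have h6 : cos θ * P ≤ (1 - 1 / 5 * t) * (e ^ 2 + r ^ 2 + 90601 / 10000) := by
      calc cos θ * P ≤ (1 - 1 / 5 * t) * P := mul_le_mul_of_nonneg_right hc' hP0
        _ ≤ _ := mul_le_mul_of_nonneg_left hP1 (by linarith)
    have he2 : e ^ 2 ≤ (q : ℝ) ^ 20 := by
      have : (q : ℝ) ^ 20 = ((q : ℝ) ^ 10) ^ 2 := by rw [← pow_mul]
      rw [this, ← sq_abs e]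
      exact pow_le_pow_left₀ (abs_nonneg _) h2 2
    have h10 : t * (q : ℝ) ^ 44 = (q : ℝ) ^ 26 := by
      rw [ht]
      unfold qi
      have : (q : ℝ) ≠ 0 := by positivity
      field_simp
    have h11 : t * (q : ℝ) ^ 44 ≤ t * r ^ 2 := mul_le_mul_of_nonneg_left hr44 ht0.le
    have h7 : (q : ℝ) ^ 26 = (q : ℝ) ^ 6 * (q : ℝ) ^ 20 := by rw [← pow_add]
    have h8 : (1000 : ℝ) ^ 6 ≤ (q : ℝ) ^ 6 := pow_le_pow_left₀ (by norm_num) hq 6
    have h9 : (1 : ℝ) ≤ (q : ℝ) ^ 20 := one_le_pow₀ (by linarith)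
    have h12 : (1000 : ℝ) ^ 6 * (q : ℝ) ^ 20 ≤ (q : ℝ) ^ 26 := by
      rw [h7]; exact mul_le_mul_of_nonneg_right h8 (by positivity)
    have h13 : 0 ≤ t * e ^ 2 := by positivity
    nlinarith

theorem st_FAMILY : ST_FAMILY := by
  unfold ST_FAMILY
  filter_upwards [eventually_ge_atTop 1000] with q hq1000
  intro c e pi si pk sk ph sh ni nk θ he hpi hpk hsi0 hsi1 hsk0 hsk1 hl hθ
  have hq : (1000 : ℝ) ≤ q := by exact_mod_cast hq1000
  have hqn : 0 < q := by omega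
  have hqge1 : (1 : ℝ) ≤ q := by linarith
  set R : ℝ := (q : ℝ) ^ 23 with hRdef
  have hR : 4 ≤ R := by
    have : (1000 : ℝ) ^ 23 ≤ (q : ℝ) ^ 23 := pow_le_pow_left₀ (by norm_num) hq 23
    rw [hRdef]
    refine le_trans ?_ this
    norm_num
  have heR : |e| ≤ R := by
    refine le_trans he ?_
    exact pow_le_pow_right₀ hqge1 (by norm_num)
  have h22 : (q : ℝ) ^ 22 + 1 ≤ R := by
    have h1 : R = (q : ℝ) * (q : ℝ) ^ 22 := by rw [hRdef, ← pow_succ']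
    have h2 : (1 : ℝ) ≤ (q : ℝ) ^ 22 := one_le_pow₀ hqge1
    rw [h1]
    nlinarith
  have hLH : (LH q : ℝ) * qi q 800 = (q : ℝ) ^ 22 := by
    unfold LH qi
    push_cast
    have : (q : ℝ) ≠ 0 := by positivity
    field_simp
  have q800 := family_qi_pos hqn 800
  have q860 := family_qi_pos hqn 860
  have q814 := family_qi_pos hqn 814
  have q777 := family_qi_pos hqn 777
  have hrle : ∀ l ≤ LH q, 1 / 2 + (l : ℝ) * qi q 800 ≤ 1 / 2 + (q : ℝ) ^ 22 := by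
    intro l hl
    rw [← hLH]
    have : (l : ℝ) ≤ (LH q : ℝ) := by exact_mod_cast hl
    have := mul_le_mul_of_nonneg_right this q800.le
    linarith
  have hrge : ∀ l : ℕ, 1 / 2 ≤ 1 / 2 + (l : ℝ) * qi q 800 := by
    intro l
    have : 0 ≤ (l : ℝ) * qi q 800 := mul_nonneg (Nat.cast_nonneg l) q800.le
    linarith
  have hε1 : 64 * R ^ 2 * (2 * qi q 860) = 128 * qi q 814 := by
    have h1 := family_qi_mul hqn 46 814
    have h2 : R ^ 2 = (q : ℝ) ^ 46 := by rw [hRdef, ← pow_mul]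
    rw [h2, ← h1]
    norm_num
    ring
  have hε2 : 6 * R * qi q 800 = 6 * qi q 777 := by
    have h1 := family_qi_mul hqn 23 777
    rw [hRdef, ← h1]
    norm_num
    ring
  have hε3 : 11 * R * (2 * qi q 860) ≤ 1 := by
    have h1 := family_qi_mul hqn 23 837
    norm_num at h1
    have h2 : 11 * R * (2 * qi q 860) = 22 * qi q 837 := by
      rw [hRdef, ← h1]; ring
    rw [h2]
    have h3 := family_qi_mul hqn 1 836
    have h4 : qi q 836 ≤ 1 := by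
      have := family_qi_le hqn (show 0 ≤ 836 by norm_num)
      simpa [qi] using this
    norm_num at h3
    have h5 := family_qi_pos hqn 837
    nlinarith
  set N : ℕ → ℝ := fun l =>
        (cos θ * (√((pi - ph l) ^ 2 + si ^ 2 + sh l ^ 2 - 2 * si * sh l * ni l) *
            √((pk - ph l) ^ 2 + sk ^ 2 + sh l ^ 2 - 2 * sk * sh l * nk l)) -
          (pi - ph l) * (pk - ph l) - sh l ^ 2 + si * sh l * ni l + sh l * sk * nk l) /
          (si * sk) with hN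
  have hss : 98 / 100 ≤ si * sk := by nlinarith
  have hss0 : 0 < si * sk := by linarith
  have happ : ∀ l ≤ LH q, |N l * (si * sk) - familyNom θ e si sk (1 / 2 + (l : ℝ) * qi q 800)| ≤
      128 * qi q 814 := by
    intro l hlL
    obtain ⟨hp, hs, hni, hnk⟩ := hl l hlL
    have e1 : pi - ph l = e + (pi - ph l - e) := by ring
    have e2 : pk - ph l = -e + (pk - ph l + e) := by ring
    have e3 : sh l = (1 / 2 + (l : ℝ) * qi q 800) + (sh l - (1 / 2 + (l : ℝ) * qi q 800)) := by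
      ring
    have d1 : |pi - ph l - e| ≤ 2 * qi q 860 := by
      rw [abs_le] at hpi hp ⊢
      constructor <;> linarith [hpi.1, hpi.2, hp.1, hp.2]
    have d2 : |pk - ph l + e| ≤ 2 * qi q 860 := by
      rw [abs_le] at hpk hp ⊢
      constructor <;> linarith [hpk.1, hpk.2, hp.1, hp.2]
    have d3 : |sh l - (1 / 2 + (l : ℝ) * qi q 800)| ≤ 2 * qi q 860 := by linarith
    have h955 : qi q 955 ≤ qi q 860 := family_qi_le hqn (by norm_num)
    have d4 : |ni l| ≤ 2 * qi q 860 := by linarith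
    have d5 : |nk l| ≤ 2 * qi q 860 := by linarith
    have key := family_nom (θ := θ) hR heR (by linarith [hrge l])
      (show 1 / 2 + (l : ℝ) * qi q 800 ≤ R by linarith [hrle l hlL]) hsi0 hsi1 hsk0 hsk1 hε3
      (hrge l) d1 d2 d3 d4 d5
    rw [← e1, ← e2, ← e3, hε1] at key
    have : N l * (si * sk) = cos θ * (√((pi - ph l) ^ 2 + si ^ 2 + sh l ^ 2 - 2 * si * sh l * ni l) *
            √((pk - ph l) ^ 2 + sk ^ 2 + sh l ^ 2 - 2 * sk * sh l * nk l)) -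
          (pi - ph l) * (pk - ph l) - sh l ^ 2 + si * sh l * ni l + sh l * sk * nk l := by
      simp only [hN]
      rw [div_mul_cancel₀ _ hss0.ne']
    rw [this]
    exact key
  have h814 : 128 * qi q 814 ≤ 1 / 2000 := by
    have h3 := family_qi_mul hqn 2 812
    have h4 : qi q 812 ≤ 1 := by
      have := family_qi_le hqn (show 0 ≤ 812 by norm_num)
      simpa [qi] using this
    norm_num at h3
    have h8 : (1000 : ℝ) ^ 2 ≤ (q : ℝ) ^ 2 := pow_le_pow_left₀ (by norm_num) hq 2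
    nlinarith
  have hN0 : 0 ≤ N 0 := by
    have h1 := happ 0 (Nat.zero_le _)
    have h2 := family_sign0 (θ := θ) (e := e) hq hsi0 hsi1 hsk0 hsk1 hθ
    have h3 : (1 / 2 + ((0 : ℕ) : ℝ) * qi q 800) = 1 / 2 := by push_cast; ring
    rw [h3] at h1
    have h4 := (abs_le.1 h1).1
    have h5 : 0 < N 0 * (si * sk) := by linarith
    by_contra h6
    push Not at h6
    have := mul_nonneg (neg_nonneg.2 h6.le) hss0.le
    linarith
  have hNL : N (LH q) < 0 := by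
    have h1 := happ (LH q) le_rfl
    have h2 := family_signL (θ := θ) hq he hsi0 hsi1 hsk0 hsk1 hθ
    rw [hLH] at h1
    have h4 := (abs_le.1 h1).2
    have h5 : N (LH q) * (si * sk) < 0 := by linarith
    by_contra h6
    push Not at h6
    have := mul_nonneg h6 hss0.le
    linarith
  have hstep : ∀ l < LH q, |N (l + 1) - N l| ≤ qi q 775 := by
    intro l hlt
    have h1 := happ l hlt.le
    have h2 := happ (l + 1) hlt
    have hr1 : 1 / 2 + ((l + 1 : ℕ) : ℝ) * qi q 800 = (1 / 2 + (l : ℝ) * qi q 800) + qi q 800 := by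
      push_cast; ring
    have hle1 := hrle (l + 1) hlt
    rw [hr1] at h2 hle1
    have h3 := family_lip (θ := θ) hR heR (by linarith [hrge l]) q800.le
      (show (1 / 2 + (l : ℝ) * qi q 800) + qi q 800 ≤ R by linarith) hsi0 hsi1 hsk0 hsk1
    rw [hε2] at h3
    have h4 : |(N (l + 1) - N l) * (si * sk)| ≤ 6 * qi q 777 + 256 * qi q 814 := by
      have : (N (l + 1) - N l) * (si * sk) = N (l + 1) * (si * sk) - N l * (si * sk) := by ring
      rw [this]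
      rw [abs_le] at h1 h2 h3 ⊢
      constructor
      · linarith [h1.2, h2.1, h3.1]
      · linarith [h1.1, h2.2, h3.2]
    rw [abs_mul, abs_of_pos hss0] at h4
    have h5 : qi q 814 ≤ qi q 777 := family_qi_le hqn (by norm_num)
    have h6 : |N (l + 1) - N l| * (98 / 100) ≤ |N (l + 1) - N l| * (si * sk) :=
      mul_le_mul_of_nonneg_left hss (abs_nonneg _)
    have h7 := family_qi_mul hqn 2 775
    norm_num at h7
    have h8 : (1000 : ℝ) ^ 2 ≤ (q : ℝ) ^ 2 := pow_le_pow_left₀ (by norm_num) hq 2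
    have h9 : (1000 : ℝ) ^ 2 * qi q 777 ≤ (q : ℝ) ^ 2 * qi q 777 :=
      mul_le_mul_of_nonneg_right h8 q777.le
    linarith
  exact family_ivt N (LH q) (qi q 775) hN0 hNL hstep

end Pool.Agent.Helper72.RA
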