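import Pool.Agent.Helper94.RA.SUMS

set_option autoImplicit false

namespace Pool.Agent.Helper72.RA

open Real Finset MeasureTheory Filter

open scoped Classical

attribute [local irreducible] qi

theorem osum_formula {Q M P t : ℝ} (hM : 0 < M) (hP : 0 < P) (ht : 0 < t) :
    Q ^ 3 * (1 + 24 * (t * (112 / 100 / P) / 20) * (M * Q ^ 11)) /
      (35 / 10000 * M ^ 2 * t / P) = 2000 / 7 * (Q ^ 3 * P / (M ^ 2 * t)) + 384 * (Q ^ 14 / M) := by
  field_simp
  ring

theorem osum_mul {Q M P t a : ℝ} (hM : 0 < M) (hP : 0 < P) (ht : 0 < t)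
    (h : Q ^ 3 * (Q * M + P) ≤ a * (M ^ 2 * t)) :
    (Q * M / P + 1) * (Q ^ 3 * P / (M ^ 2 * t)) ≤ a := by
  have : (Q * M / P + 1) * (Q ^ 3 * P / (M ^ 2 * t)) = Q ^ 3 * (Q * M + P) / (M ^ 2 * t) := by
    field_simp
  rw [this, div_le_iff₀ (by positivity)]
  exact h

theorem st_OSUM (hL : ST_LEV) : ST_OSUM := by
  unfold ST_OSUM
  filter_upwards [hL] with q hq
  obtain ⟨hq9, _, _, _, hUU, _, _, hPl, _, hPU, _, _, _, hsum⟩ := hq
  intro m hm1 hm2 D
  have hq0 : 0 < q := by omega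
  have hqR : (10 ^ 9 : ℝ) ≤ q := by exact_mod_cast hq9
  have hqR0 : (0 : ℝ) < q := by exact_mod_cast hq0
  have hqR1 : (1 : ℝ) ≤ q := by exact_mod_cast hq0
  have hM1 : (q : ℝ) ^ 1000 ≤ m := by exact_mod_cast hm1
  have hM2 : (m : ℝ) ≤ 2 * (q : ℝ) ^ 1000 := by exact_mod_cast hm2
  have hQ1000 : (0 : ℝ) < (q : ℝ) ^ 1000 := by positivity
  have hM0 : (0 : ℝ) < m := by linarith
  have hqM : (q : ℝ) ≤ m := by
    refine le_trans ?_ hM1
    exact le_self_pow₀ hqR1 (by norm_num)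
  -- the first term
  have hfirst : (m : ℝ) * (q : ℝ) ^ 3 / (7 / 100 * (m : ℝ) ^ 2 * qi q 996) ≤ 100 / 7 * qi q 1 := by
    have p := sums_qi_pos hq0 996
    rw [div_le_iff₀ (by positivity)]
    have e1 := sums_qi_add (q := q) 1 996
    have e2 : (q : ℝ) ^ 1000 * qi q 997 = (q : ℝ) ^ 3 := by
      have e3 : (q : ℝ) ^ 1000 = (q : ℝ) ^ 3 * (q : ℝ) ^ 997 := by rw [← pow_add]
      have e4 : (q : ℝ) ^ 997 * qi q 997 = 1 := by
        unfold qi
        exact mul_inv_cancel₀ (by positivity)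
      rw [e3, mul_assoc, e4, mul_one]
    have p2 := sums_qi_pos hq0 997
    norm_num at e1
    have h1 : (q : ℝ) ^ 3 ≤ m * qi q 997 := by
      rw [← e2]; exact mul_le_mul_of_nonneg_right hM1 p2.le
    calc (m : ℝ) * (q : ℝ) ^ 3 ≤ m * (m * qi q 997) := mul_le_mul_of_nonneg_left h1 hM0.le
      _ = 100 / 7 * qi q 1 * (7 / 100 * (m : ℝ) ^ 2 * qi q 996) := by rw [← e1]; ring
  -- the terms of the sum
  have hterm : ∀ u ≤ UU q, ((q : ℝ) * m / Pl q u + 1) *
      ((q : ℝ) ^ 3 * (1 + 24 * (tolG q u * (112 / 100 / (Pl q u : ℝ)) / 20) *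
          ((m : ℝ) * (q : ℝ) ^ 11)) /
          (35 / 10000 * (m : ℝ) ^ 2 * tolG q u / (Pl q u : ℝ))) ≤
      2300 * qi q 4 + 384 * qi q 986 + 384 * (q : ℝ) ^ 15 * ((Pl q u : ℝ))⁻¹ := by
    intro u hu
    have hP0 : (0 : ℝ) < Pl q u := lt_of_lt_of_le (by positivity) (hPl u)
    have ht0 : 0 < tolG q u := by
      unfold tolG
      split_ifs
      · exact sums_qi_pos hq0 _
      · exact sums_qi_pos hq0 _
    rw [osum_formula hM0 hP0 ht0, mul_add, mul_left_comm, mul_left_comm _ (384 : ℝ)]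
    have hA : ((q : ℝ) * m / Pl q u + 1) * ((q : ℝ) ^ 3 * Pl q u / ((m : ℝ) ^ 2 * tolG q u)) ≤
        8 * qi q 4 := by
      apply osum_mul hM0 hP0 ht0
      unfold tolG
      split_ifs with hc
      · have hPc : (Pl q u : ℝ) ≤ (q : ℝ) ^ 900 := by exact_mod_cast hc
        have h1 : (q : ℝ) ^ 900 ≤ (q : ℝ) ^ 1000 := pow_le_pow_right₀ hqR1 (by norm_num)
        have h2 : (Pl q u : ℝ) ≤ q * m := by nlinarith
        have e1 := sums_qi_add (q := q) 4 992
        norm_num at e1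
        have e2 : (q : ℝ) ^ 1000 * qi q 996 = (q : ℝ) ^ 4 := by
          have e3 : (q : ℝ) ^ 1000 = (q : ℝ) ^ 4 * (q : ℝ) ^ 996 := by rw [← pow_add]
          have e4 : (q : ℝ) ^ 996 * qi q 996 = 1 := by
            unfold qi
            exact mul_inv_cancel₀ (by positivity)
          rw [e3, mul_assoc, e4, mul_one]
        have p2 := sums_qi_pos hq0 996
        have h3 : (q : ℝ) ^ 4 ≤ m * qi q 996 := by
          rw [← e2]; exact mul_le_mul_of_nonneg_right hM1 p2.le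
        calc (q : ℝ) ^ 3 * (q * m + Pl q u) ≤ (q : ℝ) ^ 3 * (2 * (q * m)) :=
              mul_le_mul_of_nonneg_left (by linarith) (by positivity)
          _ = 2 * m * (q : ℝ) ^ 4 := by ring
          _ ≤ 2 * m * (m * qi q 996) := mul_le_mul_of_nonneg_left h3 (by positivity)
          _ ≤ 8 * m * (m * qi q 996) := by
              have : 0 ≤ (m : ℝ) * (m * qi q 996) := by positivity
              linarith
          _ = 8 * qi q 4 * ((m : ℝ) ^ 2 * qi q 992) := by rw [← e1]; ring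
      · have hPU' : (Pl q u : ℝ) ≤ 6 * (q : ℝ) ^ 1350 := by
          have : Pl q u ≤ Pl q (UU q) := by
            unfold Pl
            exact Nat.mul_le_mul_left _ (Nat.pow_le_pow_right (by norm_num) hu)
          refine le_trans ?_ hPU
          exact_mod_cast this
        have h1 : (q : ℝ) * m ≤ 2 * (q : ℝ) ^ 1350 := by
          have h2 : (q : ℝ) ^ 1001 ≤ (q : ℝ) ^ 1350 := pow_le_pow_right₀ hqR1 (by norm_num)
          have h3 : (q : ℝ) ^ 1001 = (q : ℝ) ^ 1000 * q := pow_succ _ _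
          have h4 : (q : ℝ) * m ≤ q * (2 * (q : ℝ) ^ 1000) := mul_le_mul_of_nonneg_left hM2 hqR0.le
          linarith
        have e1 := sums_qi_add (q := q) 4 560
        norm_num at e1
        have e2 : (q : ℝ) ^ 2000 * qi q 564 = (q : ℝ) ^ 1436 := by
          have e3 : (q : ℝ) ^ 2000 = (q : ℝ) ^ 1436 * (q : ℝ) ^ 564 := by rw [← pow_add]
          have e4 : (q : ℝ) ^ 564 * qi q 564 = 1 := by
            unfold qi
            exact mul_inv_cancel₀ (by positivity)
          rw [e3, mul_assoc, e4, mul_one]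
        have p2 := sums_qi_pos hq0 564
        have hmm : (q : ℝ) ^ 2000 ≤ (m : ℝ) ^ 2 := by
          have : (q : ℝ) ^ 2000 = ((q : ℝ) ^ 1000) ^ 2 := by rw [← pow_mul]
          rw [this]
          exact pow_le_pow_left₀ hQ1000.le hM1 2
        have h3 : (q : ℝ) ^ 1436 ≤ (m : ℝ) ^ 2 * qi q 564 := by
          rw [← e2]; exact mul_le_mul_of_nonneg_right hmm p2.le
        have h5 : (q : ℝ) ^ 1353 ≤ (q : ℝ) ^ 1436 := pow_le_pow_right₀ hqR1 (by norm_num)
        calc (q : ℝ) ^ 3 * (q * m + Pl q u) ≤ (q : ℝ) ^ 3 * (8 * (q : ℝ) ^ 1350) :=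
              mul_le_mul_of_nonneg_left (by linarith) (by positivity)
          _ = 8 * (q : ℝ) ^ 1353 := by
              have : (q : ℝ) ^ 1353 = (q : ℝ) ^ 3 * (q : ℝ) ^ 1350 := by rw [← pow_add]
              rw [this]; ring
          _ ≤ 8 * ((m : ℝ) ^ 2 * qi q 564) := by linarith
          _ = 8 * qi q 4 * ((m : ℝ) ^ 2 * qi q 560) := by rw [← e1]; ring
    have hB : ((q : ℝ) * m / Pl q u + 1) * ((q : ℝ) ^ 14 / m) ≤
        qi q 986 + (q : ℝ) ^ 15 * ((Pl q u : ℝ))⁻¹ := by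
      have h1 : ((q : ℝ) * m / Pl q u + 1) * ((q : ℝ) ^ 14 / m) =
          (q : ℝ) ^ 14 / m + (q : ℝ) ^ 15 * ((Pl q u : ℝ))⁻¹ := by
        have e5 : (q : ℝ) ^ 15 = (q : ℝ) ^ 14 * q := pow_succ _ _
        rw [e5]
        field_simp
        ring
      rw [h1]
      have h2 : (q : ℝ) ^ 14 / m ≤ qi q 986 := by
        rw [div_le_iff₀ hM0]
        have p2 := sums_qi_pos hq0 986
        have e2 : (q : ℝ) ^ 1000 * qi q 986 = (q : ℝ) ^ 14 := by
          have e3 : (q : ℝ) ^ 1000 = (q : ℝ) ^ 14 * (q : ℝ) ^ 986 := by rw [← pow_add]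
          have e4 : (q : ℝ) ^ 986 * qi q 986 = 1 := by
            unfold qi
            exact mul_inv_cancel₀ (by positivity)
          rw [e3, mul_assoc, e4, mul_one]
        rw [← e2, mul_comm (qi q 986)]
        exact mul_le_mul_of_nonneg_right hM1 p2.le
      linarith
    have p4 := sums_qi_pos hq0 4
    linarith
  have hF : ∀ u, 0 ≤ (q : ℝ) ^ 3 * (1 + 24 * (tolG q u * (112 / 100 / (Pl q u : ℝ)) / 20) *
          ((m : ℝ) * (q : ℝ) ^ 11)) /
          (35 / 10000 * (m : ℝ) ^ 2 * tolG q u / (Pl q u : ℝ)) := by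
    intro u
    have ht0 : 0 < tolG q u := by
      unfold tolG
      split_ifs
      · exact sums_qi_pos hq0 _
      · exact sums_qi_pos hq0 _
    positivity
  have hS := sums_high_le D (fun u => (q : ℝ) ^ 3 * (1 + 24 * (tolG q u * (112 / 100 / (Pl q u : ℝ)) / 20) *
          ((m : ℝ) * (q : ℝ) ^ 11)) /
          (35 / 10000 * (m : ℝ) ^ 2 * tolG q u / (Pl q u : ℝ))) hF
  have hS2 : ∑ u ∈ (range (UU q + 1)).filter (fun u => u0 q ≤ u), ((q : ℝ) * m / Pl q u + 1) *
      ((q : ℝ) ^ 3 * (1 + 24 * (tolG q u * (112 / 100 / (Pl q u : ℝ)) / 20) *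
          ((m : ℝ) * (q : ℝ) ^ 11)) /
          (35 / 10000 * (m : ℝ) ^ 2 * tolG q u / (Pl q u : ℝ))) ≤
      q * (2300 * qi q 4 + 384 * qi q 986) + 384 * (q : ℝ) ^ 15 * (2 / 3 * qi q 20) := by
    refine le_trans (Finset.sum_le_sum (fun u hu => hterm u ?_)) ?_
    · rw [Finset.mem_filter, Finset.mem_range] at hu
      omega
    · rw [Finset.sum_add_distrib, ← Finset.mul_sum, Finset.sum_const, nsmul_eq_mul]
      have p1 := sums_qi_pos hq0 4
      have p2 := sums_qi_pos hq0 986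
      apply add_le_add
      · apply mul_le_mul_of_nonneg_right _ (by positivity)
        have : ((range (UU q + 1)).filter (fun u => u0 q ≤ u)).card ≤ q := by
          refine le_trans (Finset.card_filter_le _ _) ?_
          rw [Finset.card_range]
          omega
        exact_mod_cast this
      · exact mul_le_mul_of_nonneg_left hsum (by positivity)
  have q1 : qi q 1 ≤ 1 / 10 ^ 9 := by
    unfold qi
    rw [pow_one, ← one_div]
    exact one_div_le_one_div_of_le (by norm_num) hqR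
  have t1 : (q : ℝ) * qi q 4 ≤ qi q 1 := by
    have e1 := sums_qi_mul hq0 1 3
    rw [pow_one] at e1
    have e2 := sums_qi_le hq0 (show 1 ≤ 3 by norm_num)
    norm_num at e1
    rw [e1]; exact e2
  have t2 : (q : ℝ) * qi q 986 ≤ qi q 1 := by
    have e1 := sums_qi_mul hq0 1 985
    rw [pow_one] at e1
    have e2 := sums_qi_le hq0 (show 1 ≤ 985 by norm_num)
    norm_num at e1
    rw [e1]; exact e2
  have t3 : (q : ℝ) ^ 15 * qi q 20 ≤ qi q 1 := by
    have e1 := sums_qi_mul hq0 15 5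
    have e2 := sums_qi_le hq0 (show 1 ≤ 5 by norm_num)
    norm_num at e1
    rw [e1]; exact e2
  norm_num at q1
  have p1 := sums_qi_pos hq0 1
  have hfin := le_trans hS hS2
  have : q * (2300 * qi q 4 + 384 * qi q 986) + 384 * (q : ℝ) ^ 15 * (2 / 3 * qi q 20) =
    2300 * (q * qi q 4) + 384 * (q * qi q 986) + 256 * ((q : ℝ) ^ 15 * qi q 20) := by ring
  rw [this] at hfin
  have h9 : 2300 * (q * qi q 4) + 384 * (q * qi q 986) + 256 * ((q : ℝ) ^ 15 * qi q 20) ≤
    3000 * qi q 1 := by linarith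
  refine le_trans (add_le_add hfirst (le_trans hfin h9)) ?_
  linarith

end Pool.Agent.Helper72.RA
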