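import Pool.Agent.Helper72.RA.Defs2

set_option autoImplicit false

namespace Pool.Agent.Helper72.RA

open Real Finset MeasureTheory Filter

open scoped Classical

/-- number of residues -/
theorem psupp_card (N j : ℕ) (hj : j < 4) :
    N / 4 ≤ (univ.filter fun t : Fin N => (t : ℕ) % 4 = j).card := by
  have hinj : Function.Injective (fun i : Fin (N / 4) => (⟨4 * i + j, by omega⟩ : Fin N)) := by
    intro a b hab
    simp only [Fin.mk.injEq] at hab
    ext
    omega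
  have h1 : (univ.image (fun i : Fin (N / 4) => (⟨4 * i + j, by omega⟩ : Fin N))).card = N / 4 := by
    rw [Finset.card_image_of_injective _ hinj, Finset.card_univ, Fintype.card_fin]
  rw [← h1]
  apply Finset.card_le_card
  intro t ht
  rw [Finset.mem_image] at ht
  obtain ⟨i, _, rfl⟩ := ht
  rw [Finset.mem_filter]
  refine ⟨Finset.mem_univ _, ?_⟩
  change (4 * (i : ℕ) + j) % 4 = j
  omega

theorem psupp_NN (b a q m : ℕ) (hq : 30 ≤ q) (h2 : b = a * q) (h4 : 1 ≤ a) (hm : b ≤ m) :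
    b * a * 8 ≤ NN m := by
  unfold NN
  rw [Nat.choose_two_right]
  have h3 : a * 30 ≤ b := by rw [h2]; exact Nat.mul_le_mul_left _ hq
  clear h2 hq
  have h1 : b * (b - 1) ≤ m * (m - 1) := Nat.mul_le_mul hm (by omega)
  have h5 : a * 20 ≤ b - 1 := by omega
  have h6 : b * (a * 20) ≤ m * (m - 1) := le_trans (Nat.mul_le_mul_left _ h5) h1
  have h7 : 1 ≤ b * a := Nat.mul_pos (by omega) (by omega)
  have h8 : b * (a * 20) = b * a * 20 := by rw [mul_assoc]
  rw [h8] at h6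
  generalize b * a = c at *
  generalize m * (m - 1) = d at *
  omega

/-- the set for one window -/
def psuppV (q N z : ℕ) : Set ((Fin N → ℝ) × ℝ) :=
  {p | ∃ t : Fin N, (t : ℕ) % 4 = 0 ∧
        (z : ℝ) * qi q 1401 ≤ p.1 t ∧ p.1 t < ((z : ℝ) + 1) * qi q 1401 ∧
        0 < π - p.1 t - p.2 ∧ π - p.1 t - p.2 < qi q 2530}

theorem psupp_meas (q N z : ℕ) : MeasurableSet (psuppV q N z) := by
  have : psuppV q N z = ⋃ t : Fin N, {p : (Fin N → ℝ) × ℝ | (t : ℕ) % 4 = 0 ∧
        (z : ℝ) * qi q 1401 ≤ p.1 t ∧ p.1 t < ((z : ℝ) + 1) * qi q 1401 ∧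
        0 < π - p.1 t - p.2 ∧ π - p.1 t - p.2 < qi q 2530} := by
    ext p
    simp [psuppV]
  rw [this]
  apply MeasurableSet.iUnion
  intro t
  have hm : Measurable fun p : (Fin N → ℝ) × ℝ => p.1 t := (measurable_pi_apply t).comp measurable_fst
  have hm2 : Measurable fun p : (Fin N → ℝ) × ℝ => π - p.1 t - p.2 :=
    (measurable_const.sub hm).sub measurable_snd
  apply MeasurableSet.inter (MeasurableSet.const _)
  apply MeasurableSet.inter (measurableSet_le measurable_const hm)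
  apply MeasurableSet.inter (measurableSet_lt hm measurable_const)
  exact MeasurableSet.inter (measurableSet_lt measurable_const hm2)
    (measurableSet_lt hm2 measurable_const)

theorem psupp_step {q m : ℕ} (hA : ST_AVOID) (hq : 1000 ≤ (q : ℝ)) (hm : q ^ 1000 ≤ m)
    (hU : ∀ θ : Fin (NN m) → ℝ,
    (∀ i < q ^ 1980, ∃ t : Fin (NN m), (t : ℕ) % 4 = 0 ∧
      (i : ℝ) * (π / (q : ℝ) ^ 1980) < θ t ∧
      θ t ≤ ((i : ℝ) + 1) * (π / (q : ℝ) ^ 1980)) →
    ∀ z : ℕ, ((z : ℝ) + 1) * qi q 1401 ≤ π / 2 →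
      qi q 1952 ≤ (unif {y | ∃ t : Fin (NN m), (t : ℕ) % 4 = 0 ∧
        (z : ℝ) * qi q 1401 ≤ θ t ∧ θ t < ((z : ℝ) + 1) * qi q 1401 ∧
        0 < π - θ t - y ∧ π - θ t - y < qi q 2530}).toReal) (z : ℕ)
    (hz : ((z : ℝ) + 1) * qi q 1401 ≤ π / 2) :
    (Measure.pi fun _ : Fin (NN m) => unif)
      {θ | CellReg q m θ ∧ ¬ ∃ t t' : Fin (NN m), (t : ℕ) % 4 = 0 ∧ (t' : ℕ) % 4 = 1 ∧
          (z : ℝ) * qi q 1401 ≤ θ t ∧ θ t < ((z : ℝ) + 1) * qi q 1401 ∧
          0 < π - θ t - θ t' ∧ π - θ t - θ t' < qi q 2530} ≤ ENNReal.ofReal (exp (-q)) := by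
  have hq0 : (0 : ℝ) < q := by linarith
  have hq1 : (1 : ℝ) ≤ q := by linarith
  have hqn : 1000 ≤ q := by exact_mod_cast hq
  -- size of the pools
  have hNN : q ^ 1000 * q ^ 999 * 8 ≤ NN m :=
    psupp_NN (q ^ 1000) (q ^ 999) q m (le_trans (by norm_num) hqn) (pow_succ q 999)
      (Nat.one_le_pow _ _ (lt_of_lt_of_le (by norm_num) hqn)) hm
  have hcard : ∀ j < 4, q ^ 1999 * 2 ≤
      (univ.filter fun t : Fin (NN m) => (t : ℕ) % 4 = j).card := by
    intro j hj
    refine le_trans ?_ (psupp_card (NN m) j hj)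
    have h1 : q ^ 1999 = q ^ 1000 * q ^ 999 := by rw [← pow_add]
    rw [h1]
    generalize q ^ 1000 * q ^ 999 = a at *
    omega
  set u : ℝ := qi q 1952 with hu
  have hu0 : 0 < u := by rw [hu]; unfold qi; positivity
  have hu1 : u ≤ 1 := by
    rw [hu]; unfold qi
    exact inv_le_one_of_one_le₀ (one_le_pow₀ hq1)
  have key := hA (NN m) (univ.filter fun t : Fin (NN m) => (t : ℕ) % 4 = 0)
    (univ.filter fun t : Fin (NN m) => (t : ℕ) % 4 = 1) (psuppV q (NN m) z) u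
    (by
      rw [Finset.disjoint_left]
      intro t ht ht'
      rw [Finset.mem_filter] at ht ht'
      omega)
    (psupp_meas q (NN m) z)
    (by
      intro θ θ' y hθ
      unfold psuppV
      simp only [Set.mem_ofPred_eq]
      apply exists_congr
      intro t
      constructor
      · rintro ⟨h1, h2⟩
        rw [hθ t (by simp [h1])] at h2
        exact ⟨h1, h2⟩
      · rintro ⟨h1, h2⟩
        rw [← hθ t (by simp [h1])] at h2
        exact ⟨h1, h2⟩)
    hu0.le hu1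
  refine le_trans (measure_mono ?_) (le_trans key ?_)
  · rintro θ ⟨hθ, hno⟩
    constructor
    · apply hU θ _ z hz
      intro i hi
      have h1 := hθ 0 (by norm_num) i hi
      have h2 := hcard 0 (by norm_num)
      set n0 : ℝ := ((univ.filter fun t : Fin (NN m) => (t : ℕ) % 4 = 0).card : ℝ) with hn0
      have h3 : 0 < n0 / (q : ℝ) ^ 1980 := by
        apply div_pos _ (by positivity)
        have h4 : 0 < q ^ 1999 * 2 := by positivity
        rw [hn0]
        exact_mod_cast lt_of_lt_of_le h4 h2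
      have h4 := (abs_le.1 h1).1
      have h5 : (0 : ℝ) < (((univ.filter fun t : Fin (NN m) => (t : ℕ) % 4 = 0 ∧
        (i : ℝ) * (π / (q : ℝ) ^ 1980) < θ t ∧
        θ t ≤ ((i : ℝ) + 1) * (π / (q : ℝ) ^ 1980)).card : ℕ) : ℝ) := by linarith
      have h6 : 0 < (univ.filter fun t : Fin (NN m) => (t : ℕ) % 4 = 0 ∧
        (i : ℝ) * (π / (q : ℝ) ^ 1980) < θ t ∧
        θ t ≤ ((i : ℝ) + 1) * (π / (q : ℝ) ^ 1980)).card := by exact_mod_cast h5
      obtain ⟨t, ht⟩ := Finset.card_pos.1 h6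
      rw [Finset.mem_filter] at ht
      exact ⟨t, ht.2⟩
    · intro t' ht' hV
      rw [Finset.mem_filter] at ht'
      obtain ⟨t, h1, h2⟩ := hV
      exact hno ⟨t, t', h1, ht'.2, h2⟩
  · apply ENNReal.ofReal_le_ofReal
    have h1 := hcard 1 (by norm_num)
    set J := (univ.filter fun t : Fin (NN m) => (t : ℕ) % 4 = 1).card with hJ
    have h2 : 1 - u ≤ exp (-u) := by
      have := Real.add_one_le_exp (-u)
      linarith
    calc (1 - u) ^ J ≤ (exp (-u)) ^ J := pow_le_pow_left₀ (by linarith) h2 J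
      _ = exp (-(u * J)) := by rw [← Real.exp_nat_mul]; congr 1; ring
      _ ≤ exp (-q) := by
        apply Real.exp_le_exp.2
        rw [neg_le_neg_iff]
        have h3 : ((q : ℝ) ^ 1999 * 2) ≤ J := by exact_mod_cast h1
        have h4 : (q : ℝ) ^ 1999 = (q : ℝ) ^ 1952 * (q : ℝ) ^ 47 := by rw [← pow_add]
        have h5 : u * ((q : ℝ) ^ 1999 * 2) = (q : ℝ) ^ 47 * 2 := by
          rw [h4, hu]
          unfold qi
          have : (q : ℝ) ^ 1952 ≠ 0 := by positivity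
          field_simp
        have h6 : u * ((q : ℝ) ^ 1999 * 2) ≤ u * J := mul_le_mul_of_nonneg_left h3 hu0.le
        have h7 : (q : ℝ) ≤ (q : ℝ) ^ 47 := le_self_pow₀ hq1 (by norm_num)
        have h8 : (0 : ℝ) ≤ (q : ℝ) ^ 47 := by positivity
        linarith

theorem st_PSUPP (hA : ST_AVOID) (hU : ST_UMEAS) : ST_PSUPP := by
  intro ε hε
  have hlim : Tendsto (fun q : ℕ => ENNReal.ofReal (2 * ((q : ℝ) ^ 1402 * exp (-q)))) atTop (nhds 0) := by
    rw [← ENNReal.ofReal_zero]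
    apply ENNReal.tendsto_ofReal
    have h1 := (Real.tendsto_pow_mul_exp_neg_atTop_nhds_zero 1402).comp
      (tendsto_natCast_atTop_atTop (R := ℝ))
    have h2 := h1.const_mul 2
    rw [mul_zero] at h2
    exact h2
  have hev := (ENNReal.tendsto_nhds_zero.1 hlim) ε hε
  filter_upwards [hU, hev, eventually_ge_atTop 1000] with q hUq hεq hq1000
  intro m hm hm2
  have hq : (1000 : ℝ) ≤ q := by exact_mod_cast hq1000
  have hq0 : (0 : ℝ) < q := by linarith
  refine le_trans ?_ hεq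
  have hw0 : 0 < qi q 1401 := by unfold qi; positivity
  have hsub : {θ : Fin (NN m) → ℝ | CellReg q m θ ∧ ¬ ∀ z : ℕ, ((z : ℝ) + 1) * qi q 1401 ≤ π / 2 →
        ∃ t t' : Fin (NN m), (t : ℕ) % 4 = 0 ∧ (t' : ℕ) % 4 = 1 ∧
          (z : ℝ) * qi q 1401 ≤ θ t ∧ θ t < ((z : ℝ) + 1) * qi q 1401 ∧
          0 < π - θ t - θ t' ∧ π - θ t - θ t' < qi q 2530} ⊆
      ⋃ z ∈ (range (2 * q ^ 1401)).filter (fun z : ℕ => ((z : ℝ) + 1) * qi q 1401 ≤ π / 2),
        {θ : Fin (NN m) → ℝ | CellReg q m θ ∧ ¬ ∃ t t' : Fin (NN m), (t : ℕ) % 4 = 0 ∧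
          (t' : ℕ) % 4 = 1 ∧
          (z : ℝ) * qi q 1401 ≤ θ t ∧ θ t < ((z : ℝ) + 1) * qi q 1401 ∧
          0 < π - θ t - θ t' ∧ π - θ t - θ t' < qi q 2530} := by
    rintro θ ⟨h1, h2⟩
    push Not at h2
    obtain ⟨z, hz, h3⟩ := h2
    simp only [Set.mem_iUnion, exists_prop]
    refine ⟨z, ?_, h1, ?_⟩
    · rw [Finset.mem_filter, Finset.mem_range]
      refine ⟨?_, hz⟩
      have h4 : ((z : ℝ) + 1) * qi q 1401 ≤ 2 := by linarith [Real.pi_lt_four]
      unfold qi at h4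
      rw [← div_eq_mul_inv, div_le_iff₀ (by positivity)] at h4
      have h5 : (z : ℝ) < 2 * (q : ℝ) ^ 1401 := by linarith
      exact_mod_cast h5
    · rintro ⟨t, t', h4, h5, h6, h7, h8, h9⟩
      exact absurd h9 (not_lt.2 (h3 t t' h4 h5 h6 h7 h8))
  refine le_trans (measure_mono hsub) (le_trans (measure_biUnion_finset_le _ _) ?_)
  refine le_trans (Finset.sum_le_card_nsmul _ _ (ENNReal.ofReal (exp (-q))) ?_) ?_
  · intro z hz
    rw [Finset.mem_filter] at hz
    exact psupp_step hA hq hm (hUq m hm hm2) z hz.2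
  · rw [nsmul_eq_mul]
    have h1 : ((((range (2 * q ^ 1401)).filter (fun z : ℕ => ((z : ℝ) + 1) * qi q 1401 ≤ π / 2)).card : ℕ) :
        ENNReal) ≤ ((2 * q ^ 1401 : ℕ) : ENNReal) := by
      have := Finset.card_filter_le (range (2 * q ^ 1401))
        (fun z : ℕ => ((z : ℝ) + 1) * qi q 1401 ≤ π / 2)
      rw [Finset.card_range] at this
      exact_mod_cast this
    refine le_trans (mul_le_mul_left h1 _) ?_
    rw [← ENNReal.ofReal_natCast, ← ENNReal.ofReal_mul (by positivity)]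
    apply ENNReal.ofReal_le_ofReal
    push_cast
    have h2 : (q : ℝ) ^ 1402 = (q : ℝ) ^ 1401 * q := pow_succ _ _
    rw [h2]
    have h3 : 0 ≤ (q : ℝ) ^ 1401 * exp (-q) := by positivity
    nlinarith

end Pool.Agent.Helper72.RA
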