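import Pool.Agent.Helper94.RA.SUMS

set_option autoImplicit false

namespace Pool.Agent.Helper72.RA

open Real Finset MeasureTheory Filter

open scoped Classical

attribute [local irreducible] qi

/-- the vertices which are neither flexible nor high (except `s`) -/
noncomputable def sumS {q m : ℕ} (D : Lay q m) : Finset D.K :=
  univ.filter fun k => D.ty k = Ty.h0 ∨ D.ty k = Ty.xp ∨ D.ty k = Ty.x0 ∨ D.ty k = Ty.h

theorem sum_cardS {q m : ℕ} (hq : 0 < q) (D : Lay q m) : (sumS D).card ≤ 4 * q ^ 826 := by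
  have h1 : sumS D ⊆ {D.hv} ∪ (univ.filter fun k => D.ty k = Ty.xp) ∪
      (univ.filter fun k => D.ty k = Ty.x0) ∪ (univ.filter fun k => D.ty k = Ty.h) := by
    intro k hk
    unfold sumS at hk
    rw [Finset.mem_filter] at hk
    simp only [Finset.mem_union, Finset.mem_singleton, Finset.mem_filter, Finset.mem_univ, true_and]
    rcases hk.2 with h | h | h | h
    · left; left; left; exact (D.ty_h0 k).1 h
    · left; left; right; exact h
    · left; right; exact h
    · right; exact h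
  refine le_trans (Finset.card_le_card h1) ?_
  refine le_trans (Finset.card_union_le _ _) ?_
  have h2 := Finset.card_union_le ({D.hv} ∪ (univ.filter fun k => D.ty k = Ty.xp))
      (univ.filter fun k => D.ty k = Ty.x0)
  have h3 := Finset.card_union_le {D.hv} (univ.filter fun k => D.ty k = Ty.xp)
  have h4 := D.card_xp
  have h5 := D.card_x0
  have h6 := D.card_h
  have h7 : q ^ 655 ≤ q ^ 826 := Nat.pow_le_pow_right hq (by norm_num)
  have h8 : 1 ≤ q ^ 826 := Nat.one_le_pow _ _ hq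
  rw [Finset.card_singleton] at h3
  rw [h4] at h3
  rw [h5] at h2
  generalize q ^ 655 = a at *
  generalize q ^ 826 = b at *
  omega

theorem sum_bound {q m : ℕ} (_hq0 : 0 < q) (D : Lay q m) (i k : D.K) :
    (if opR D i k then bd D i k ^ 2 else 0) ≤
      tolK D i ^ 2 + tolK D k ^ 2 + (if i ∈ sumS D then qi q 955 ^ 2 else 0) +
        (if k ∈ sumS D then qi q 955 ^ 2 else 0) := by
  have hc : 0 ≤ qi q 955 ^ 2 := sq_nonneg _
  have hi0 : 0 ≤ (if i ∈ sumS D then qi q 955 ^ 2 else 0) := by split_ifs <;> simp [hc]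
  have hk0 : 0 ≤ (if k ∈ sumS D then qi q 955 ^ 2 else 0) := by split_ifs <;> simp [hc]
  have hti : 0 ≤ tolK D i ^ 2 := sq_nonneg _
  have htk : 0 ≤ tolK D k ^ 2 := sq_nonneg _
  split_ifs with hop h1 h2 h2
  all_goals try (positivity)
  all_goals unfold bd
  all_goals split_ifs with hh
  all_goals try
    (rcases max_cases (tolK D i) (tolK D k) with ⟨h, _⟩ | ⟨h, _⟩ <;> rw [h] <;> linarith)
  · linarith
  · linarith
  · linarith
  · exfalso
    push Not at hh
    obtain ⟨_, h3, h4, h5⟩ := hop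
    have key : ∀ x, x ≠ D.sv → ¬ high D x → x ∉ sumS D → isF D x := by
      intro x hx hhx hxS
      unfold sumS at hxS
      rw [Finset.mem_filter] at hxS
      unfold isF
      cases hty : D.ty x with
      | s => exact absurd ((D.ty_s x).1 hty) hx
      | h0 => exact absurd ⟨Finset.mem_univ _, Or.inl hty⟩ hxS
      | xp => exact absurd ⟨Finset.mem_univ _, Or.inr (Or.inl hty)⟩ hxS
      | x0 => exact absurd ⟨Finset.mem_univ _, Or.inr (Or.inr (Or.inl hty))⟩ hxS
      | h => exact absurd ⟨Finset.mem_univ _, Or.inr (Or.inr (Or.inr hty))⟩ hxS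
      | g =>
        right
        refine ⟨rfl, ?_⟩
        by_contra hlt
        exact hhx ⟨hty, not_lt.1 hlt⟩
      | v => left; rfl
    exact h5 ⟨key i h3 hh.1 h1, key k h4 hh.2 h2⟩

theorem st_SUM (hL : ST_LEV) : ST_SUM := by
  unfold ST_SUM
  filter_upwards [hL] with q hq
  obtain ⟨hq9, _, _, _, hUU, _, _, _, _, _, _, _, _, hsum⟩ := hq
  intro m hm1 hm2 D
  have hq0 : 0 < q := by omega
  have hqR : (10 ^ 9 : ℝ) ≤ q := by exact_mod_cast hq9
  have hqR0 : (0 : ℝ) < q := by exact_mod_cast hq0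
  have hqR1 : (1 : ℝ) ≤ q := by exact_mod_cast hq0
  have hM1 : (q : ℝ) ^ 1000 ≤ m := by exact_mod_cast hm1
  have hM2 : (m : ℝ) ≤ 2 * (q : ℝ) ^ 1000 := by exact_mod_cast hm2
  have hM0 : (0 : ℝ) ≤ m := Nat.cast_nonneg m
  have hK : (Fintype.card D.K : ℝ) ≤ m := by
    rw [D.card_K]
    exact_mod_cast Nat.sub_le m 2
  set A : ℝ := ∑ g, tolK D g ^ 2 with hA
  -- bound for A
  have hA1 : A ≤ ∑ u ∈ (range (UU q + 1)).filter (fun u => u0 q ≤ u),
        ((q : ℝ) * m / Pl q u + 1) * tolG q u ^ 2 := by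
    refine le_trans (le_of_eq ?_) (sums_high_le D (fun u => tolG q u ^ 2) (fun u => sq_nonneg _))
    rw [hA, Finset.sum_filter]
    apply Finset.sum_congr rfl
    intro g _
    unfold tolK
    split_ifs
    · rfl
    · norm_num
  have hterm : ∀ u, ((q : ℝ) * m / Pl q u + 1) * tolG q u ^ 2 ≤
      (q : ℝ) * m * qi q 1984 * ((Pl q u : ℝ))⁻¹ + (qi q 1984 + ((q : ℝ) * m * qi q 900 + 1) * qi q 1120) := by
    intro u
    have p1 := sums_qi_pos hq0 1984
    have p2 := sums_qi_pos hq0 1120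
    have p3 := sums_qi_pos hq0 900
    have p4 : (0 : ℝ) ≤ ((Pl q u : ℝ))⁻¹ := inv_nonneg.2 (Nat.cast_nonneg _)
    have p5 : 0 ≤ (q : ℝ) * m := by positivity
    unfold tolG
    split_ifs with h
    · have e1 : qi q 992 ^ 2 = qi q 1984 := by rw [sq, sums_qi_add]
      rw [e1, div_eq_mul_inv]
      have e2 : 0 ≤ ((q : ℝ) * m * qi q 900 + 1) * qi q 1120 := by positivity
      nlinarith
    · have e1 : qi q 560 ^ 2 = qi q 1120 := by rw [sq, sums_qi_add]
      rw [e1, div_eq_mul_inv]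
      have h2 : ((Pl q u : ℝ))⁻¹ ≤ qi q 900 := by
        unfold qi
        apply inv_anti₀ (by positivity)
        push Not at h
        exact_mod_cast h.le
      have h3 : (q : ℝ) * m * ((Pl q u : ℝ))⁻¹ ≤ (q : ℝ) * m * qi q 900 :=
        mul_le_mul_of_nonneg_left h2 p5
      have h4 : ((q : ℝ) * m * ((Pl q u : ℝ))⁻¹ + 1) * qi q 1120 ≤
          ((q : ℝ) * m * qi q 900 + 1) * qi q 1120 := mul_le_mul_of_nonneg_right (by linarith) p2.le
      have h5 : 0 ≤ (q : ℝ) * m * qi q 1984 * ((Pl q u : ℝ))⁻¹ := by positivity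
      linarith
  have hA2 : A ≤ (q : ℝ) * m * qi q 1984 * (2 / 3 * qi q 20) +
      q * (qi q 1984 + ((q : ℝ) * m * qi q 900 + 1) * qi q 1120) := by
    refine le_trans hA1 (le_trans (Finset.sum_le_sum (fun u _ => hterm u)) ?_)
    rw [Finset.sum_add_distrib, ← Finset.mul_sum, Finset.sum_const, nsmul_eq_mul]
    have p1 := sums_qi_pos hq0 1984
    have p2 := sums_qi_pos hq0 1120
    have p3 := sums_qi_pos hq0 900
    apply add_le_add
    · exact mul_le_mul_of_nonneg_left hsum (by positivity)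
    · apply mul_le_mul_of_nonneg_right _ (by positivity)
      have : ((range (UU q + 1)).filter (fun u => u0 q ≤ u)).card ≤ q := by
        refine le_trans (Finset.card_filter_le _ _) ?_
        rw [Finset.card_range]
        omega
      exact_mod_cast this
  -- the double sum
  have hmain : ∑ i, ∑ k, (if opR D i k then bd D i k ^ 2 else 0) ≤
      2 * m * A + 2 * m * ((sumS D).card * qi q 955 ^ 2) := by
    have hB : ∑ k, (if k ∈ sumS D then qi q 955 ^ 2 else 0) = (sumS D).card * qi q 955 ^ 2 := by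
      rw [Finset.sum_ite_mem, Finset.univ_inter, Finset.sum_const, nsmul_eq_mul]
    have hA0 : 0 ≤ A := Finset.sum_nonneg (fun _ _ => sq_nonneg _)
    have hB0 : 0 ≤ (sumS D).card * qi q 955 ^ 2 := by positivity
    calc ∑ i, ∑ k, (if opR D i k then bd D i k ^ 2 else 0)
        ≤ ∑ i, ∑ k, (tolK D i ^ 2 + tolK D k ^ 2 + (if i ∈ sumS D then qi q 955 ^ 2 else 0) +
        (if k ∈ sumS D then qi q 955 ^ 2 else 0)) :=
          Finset.sum_le_sum (fun i _ => Finset.sum_le_sum (fun k _ => sum_bound hq0 D i k))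
      _ = 2 * (Fintype.card D.K * A) + 2 * (Fintype.card D.K * ((sumS D).card * qi q 955 ^ 2)) := by
          simp only [Finset.sum_add_distrib, Finset.sum_const, Finset.card_univ, nsmul_eq_mul]
          rw [← Finset.mul_sum, ← Finset.mul_sum, hB, ← hA]
          ring
      _ ≤ _ := by
          have h1 := mul_le_mul_of_nonneg_right hK hA0
          have h2 := mul_le_mul_of_nonneg_right hK hB0
          linarith
  have hSc : ((sumS D).card : ℝ) ≤ 4 * (q : ℝ) ^ 826 := by exact_mod_cast sum_cardS hq0 D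
  refine le_trans hmain ?_
  have e955 : qi q 955 ^ 2 = qi q 1910 := by rw [sq, sums_qi_add]
  rw [e955]
  have q3 : qi q 3 ≤ 1 / 10 ^ 27 := by
    unfold qi
    rw [← one_div]
    apply one_div_le_one_div_of_le (by norm_num)
    calc (10 ^ 27 : ℝ) = (10 ^ 9) ^ 3 := by norm_num
      _ ≤ (q : ℝ) ^ 3 := pow_le_pow_left₀ (by norm_num) hqR 3
  -- (S)
  have t1 : 2 * (m : ℝ) * ((sumS D).card * qi q 1910) ≤ 16 * qi q 3 := by
    have p := sums_qi_pos hq0 1910
    have e1 := sums_qi_mul hq0 1826 84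
    have e2 := sums_qi_le hq0 (show 3 ≤ 84 by norm_num)
    calc 2 * (m : ℝ) * ((sumS D).card * qi q 1910)
        ≤ 2 * (2 * (q : ℝ) ^ 1000) * (4 * (q : ℝ) ^ 826 * qi q 1910) := by
          apply mul_le_mul (by linarith) _ (by positivity) (by positivity)
          exact mul_le_mul_of_nonneg_right hSc p.le
      _ = 16 * ((q : ℝ) ^ 1826 * qi q (1826 + 84)) := by
          have : (q : ℝ) ^ 1826 = (q : ℝ) ^ 1000 * (q : ℝ) ^ 826 := by rw [← pow_add]
          rw [this]; ring
      _ ≤ 16 * qi q 3 := by rw [e1]; linarith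
  -- (a)
  have t2 : 2 * (m : ℝ) * ((q : ℝ) * m * qi q 1984 * (2 / 3 * qi q 20)) ≤ 16 * qi q 3 := by
    have p := sums_qi_pos hq0 1984
    have p' := sums_qi_pos hq0 20
    have e1 := sums_qi_mul hq0 2001 3
    have e2 := sums_qi_add (q := q) 1984 20
    norm_num at e2
    have hmm : (m : ℝ) * m ≤ (2 * (q : ℝ) ^ 1000) * (2 * (q : ℝ) ^ 1000) :=
      mul_le_mul hM2 hM2 hM0 (by positivity)
    calc 2 * (m : ℝ) * ((q : ℝ) * m * qi q 1984 * (2 / 3 * qi q 20))
        = (m * m) * (4 / 3 * (q * (qi q 1984 * qi q 20))) := by ring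
      _ ≤ ((2 * (q : ℝ) ^ 1000) * (2 * (q : ℝ) ^ 1000)) * (4 / 3 * (q * (qi q 1984 * qi q 20))) :=
          mul_le_mul_of_nonneg_right hmm (by positivity)
      _ = 16 / 3 * ((q : ℝ) ^ 2001 * qi q (2001 + 3)) := by
          have : (q : ℝ) ^ 2001 = (q : ℝ) ^ 1000 * (q : ℝ) ^ 1000 * q := by
            rw [← pow_add, ← pow_succ]
          rw [this, e2]; norm_num; ring
      _ ≤ 16 * qi q 3 := by
          rw [e1]
          have := sums_qi_pos hq0 3
          linarith
  -- (b)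
  have t3 : 2 * (m : ℝ) * (q * qi q 1984) ≤ 4 * qi q 3 := by
    have p := sums_qi_pos hq0 1984
    have e1 := sums_qi_mul hq0 1001 983
    have e2 := sums_qi_le hq0 (show 3 ≤ 983 by norm_num)
    calc 2 * (m : ℝ) * (q * qi q 1984) ≤ 2 * (2 * (q : ℝ) ^ 1000) * (q * qi q 1984) :=
          mul_le_mul_of_nonneg_right (by linarith) (by positivity)
      _ = 4 * ((q : ℝ) ^ 1001 * qi q (1001 + 983)) := by
          have : (q : ℝ) ^ 1001 = (q : ℝ) ^ 1000 * q := by rw [← pow_succ]
          rw [this]; ring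
      _ ≤ 4 * qi q 3 := by rw [e1]; linarith
  -- (c)
  have t4 : 2 * (m : ℝ) * (q * (((q : ℝ) * m * qi q 900 + 1) * qi q 1120)) ≤ 12 * qi q 3 := by
    have p := sums_qi_pos hq0 1120
    have p' := sums_qi_pos hq0 900
    have e0 := sums_qi_mul hq0 900 0
    have e1 := sums_qi_mul hq0 1102 18
    have e2 := sums_qi_le hq0 (show 3 ≤ 18 by norm_num)
    have h1 : (q : ℝ) * m * qi q 900 + 1 ≤ 3 * (q : ℝ) ^ 101 := by
      have e3 : (q : ℝ) * (2 * (q : ℝ) ^ 1000) * qi q 900 = 2 * (q : ℝ) ^ 101 := by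
        have e4 : (q : ℝ) ^ 1000 = (q : ℝ) ^ 100 * (q : ℝ) ^ 900 := by rw [← pow_add]
        have e5 : (q : ℝ) ^ 101 = (q : ℝ) ^ 100 * q := pow_succ _ _
        have e6 : (q : ℝ) ^ 900 * qi q 900 = 1 := by
          unfold qi
          exact mul_inv_cancel₀ (by positivity)
        rw [e4, e5]
        calc (q : ℝ) * (2 * ((q : ℝ) ^ 100 * (q : ℝ) ^ 900)) * qi q 900
            = 2 * ((q : ℝ) ^ 100 * q) * ((q : ℝ) ^ 900 * qi q 900) := by ring
          _ = _ := by rw [e6, mul_one]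
      have h2 : (q : ℝ) * m * qi q 900 ≤ (q : ℝ) * (2 * (q : ℝ) ^ 1000) * qi q 900 :=
        mul_le_mul_of_nonneg_right (mul_le_mul_of_nonneg_left hM2 hqR0.le) p'.le
      have h3 : (1 : ℝ) ≤ (q : ℝ) ^ 101 := one_le_pow₀ hqR1
      linarith
    calc 2 * (m : ℝ) * (q * (((q : ℝ) * m * qi q 900 + 1) * qi q 1120))
        ≤ 2 * (2 * (q : ℝ) ^ 1000) * (q * ((3 * (q : ℝ) ^ 101) * qi q 1120)) := by
          apply mul_le_mul (by linarith) _ (by positivity) (by positivity)
          apply mul_le_mul_of_nonneg_left _ hqR0.le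
          exact mul_le_mul_of_nonneg_right h1 p.le
      _ = 12 * ((q : ℝ) ^ 1102 * qi q (1102 + 18)) := by
          have : (q : ℝ) ^ 1102 = (q : ℝ) ^ 1000 * (q : ℝ) ^ 101 * q := by
            rw [← pow_add, ← pow_succ]
          rw [this]; norm_num; ring
      _ ≤ 12 * qi q 3 := by rw [e1]; linarith
  have hA3 : 2 * (m : ℝ) * A ≤ 2 * m * ((q : ℝ) * m * qi q 1984 * (2 / 3 * qi q 20) +
      q * (qi q 1984 + ((q : ℝ) * m * qi q 900 + 1) * qi q 1120)) :=
    mul_le_mul_of_nonneg_left hA2 (by positivity)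
  have hfin : 2 * (m : ℝ) * A ≤ 32 * qi q 3 := by
    refine le_trans hA3 ?_
    have : 2 * (m : ℝ) * ((q : ℝ) * m * qi q 1984 * (2 / 3 * qi q 20) +
      q * (qi q 1984 + ((q : ℝ) * m * qi q 900 + 1) * qi q 1120)) =
      2 * (m : ℝ) * ((q : ℝ) * m * qi q 1984 * (2 / 3 * qi q 20)) + 2 * (m : ℝ) * (q * qi q 1984) +
      2 * (m : ℝ) * (q * (((q : ℝ) * m * qi q 900 + 1) * qi q 1120)) := by ring
    rw [this]
    linarith
  norm_num at q3
  linarith

end Pool.Agent.Helper72.RA
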