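import Pool.Agent.Helper72.RA.Defs2

set_option autoImplicit false

namespace Pool.Agent.Helper72.RA

open Real Finset MeasureTheory Filter

open scoped Classical

theorem umeas_lower (S : Set ℝ) (M : ℕ) (a : ℕ → ℝ) (δ : ℝ) (hδ : 0 < δ)
    (h0 : ∀ j < M, 0 ≤ a j) (h1 : ∀ j < M, a j + δ ≤ π)
    (hS : ∀ j < M, ∀ y, a j < y → y < a j + δ → y ∈ S)
    (hd : ∀ j < M, ∀ j' < M, j < j' → a j' + δ ≤ a j) :
    (M : ℝ) * δ / π ≤ (unif S).toReal := by
  have hpi := Real.pi_pos
  have hsub : (⋃ j ∈ range M, Set.Ioo (a j) (a j + δ)) ⊆ S := by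
    intro y hy
    simp only [Set.mem_iUnion, Finset.mem_range, Set.mem_Ioo, exists_prop] at hy
    obtain ⟨j, hj, hy1, hy2⟩ := hy
    exact hS j hj y hy1 hy2
  have hdisj : Set.PairwiseDisjoint (↑(range M) : Set ℕ) (fun j => Set.Ioo (a j) (a j + δ)) := by
    intro j hj j' hj' hne
    have hj : j < M := by simpa using hj
    have hj' : j' < M := by simpa using hj'
    change Disjoint (Set.Ioo (a j) (a j + δ)) (Set.Ioo (a j') (a j' + δ))
    rw [Set.disjoint_left]
    rintro y ⟨hy1, hy2⟩ ⟨hy3, hy4⟩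
    rcases lt_or_gt_of_ne hne with h | h
    · have := hd j hj j' hj' h
      linarith
    · have := hd j' hj' j hj h
      linarith
  have hunion : (volume.restrict (Set.Ioo 0 π)) (⋃ j ∈ range M, Set.Ioo (a j) (a j + δ)) =
      ∑ j ∈ range M, ENNReal.ofReal δ := by
    rw [measure_biUnion_finset hdisj (fun j _ => measurableSet_Ioo)]
    apply Finset.sum_congr rfl
    intro j hj
    have hj : j < M := by simpa using hj
    rw [Measure.restrict_apply measurableSet_Ioo, Set.inter_eq_left.2, Real.volume_Ioo]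
    · congr 1; ring
    · rintro y ⟨hy1, hy2⟩
      exact ⟨by linarith [h0 j hj], by linarith [h1 j hj]⟩
  have hle : (ENNReal.ofReal π)⁻¹ * ∑ j ∈ range M, ENNReal.ofReal δ ≤ unif S := by
    unfold unif
    rw [Measure.smul_apply, smul_eq_mul, ← hunion]
    exact mul_le_mul_right (measure_mono hsub) _
  have hfin : unif S ≠ ⊤ := by
    have : unif S ≤ unif Set.univ := measure_mono (Set.subset_univ _)
    refine ne_top_of_le_ne_top ?_ this
    unfold unif
    rw [Measure.smul_apply, smul_eq_mul, Measure.restrict_apply MeasurableSet.univ, Set.univ_inter,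
      Real.volume_Ioo]
    apply ENNReal.mul_ne_top
    · rw [ENNReal.inv_ne_top]
      simp [hpi]
    · exact ENNReal.ofReal_ne_top
  have h2 : ((ENNReal.ofReal π)⁻¹ * ∑ j ∈ range M, ENNReal.ofReal δ).toReal = M * δ / π := by
    rw [Finset.sum_const, Finset.card_range, nsmul_eq_mul, ENNReal.toReal_mul, ENNReal.toReal_inv,
      ENNReal.toReal_ofReal hpi.le, ENNReal.toReal_mul, ENNReal.toReal_natCast,
      ENNReal.toReal_ofReal hδ.le]
    field_simp
  rw [← h2]
  exact ENNReal.toReal_mono hfin hle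

theorem st_UMEAS : ST_UMEAS := by
  unfold ST_UMEAS
  filter_upwards [eventually_ge_atTop 1000] with q hq1000
  intro m _ _ θ hcell z hz
  have hpi := Real.pi_pos
  have hpi3 := Real.pi_gt_three
  have hpi4 := Real.pi_lt_four
  have hq : (1000 : ℝ) ≤ q := by exact_mod_cast hq1000
  have hq0 : (0 : ℝ) < q := by linarith
  have hq0' : (q : ℝ) ≠ 0 := hq0.ne'
  have hq1 : (1 : ℝ) ≤ q := by linarith
  set h : ℝ := π / (q : ℝ) ^ 1980 with hh
  set w : ℝ := qi q 1401 with hw
  set δ : ℝ := qi q 2530 with hδ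
  have hh0 : 0 < h := by positivity
  have hw0 : 0 < w := by rw [hw]; unfold qi; positivity
  have hδ0 : 0 < δ := by rw [hδ]; unfold qi; positivity
  have hδh : δ ≤ h := by
    rw [hδ, hh]
    unfold qi
    rw [div_eq_mul_inv]
    have h1 : ((q : ℝ) ^ 2530)⁻¹ ≤ ((q : ℝ) ^ 1980)⁻¹ := by
      apply inv_anti₀ (by positivity)
      exact pow_le_pow_right₀ hq1 (by norm_num)
    have h2 : 0 < ((q : ℝ) ^ 1980)⁻¹ := by positivity
    nlinarith
  set M : ℕ := 4 * q ^ 578 with hM
  have hMh : 2 * (M : ℝ) * h < w := by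
    rw [hM, hh, hw]
    unfold qi
    push_cast
    have h1 : (q : ℝ) ^ 1980 = (q : ℝ) ^ 578 * (q * (q : ℝ) ^ 1401) := by ring
    rw [h1, lt_inv_comm₀ (by positivity) (by positivity)]
    have h2 : (2 * (4 * (q : ℝ) ^ 578) * (π / ((q : ℝ) ^ 578 * (q * (q : ℝ) ^ 1401))))⁻¹ =
        q / (8 * π) * (q : ℝ) ^ 1401 := by
      field_simp
      ring
    rw [h2]
    have h3 : 1 < (q : ℝ) / (8 * π) := by
      rw [lt_div_iff₀ (by positivity)]
      linarith
    have h4 : 0 < (q : ℝ) ^ 1401 := by positivity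
    nlinarith
  set i0 : ℕ := ⌈(z : ℝ) * w / h⌉₊ with hi0
  have hi0a : (z : ℝ) * w ≤ i0 * h := by
    have := Nat.le_ceil ((z : ℝ) * w / h)
    rw [← hi0, div_le_iff₀ hh0] at this
    exact this
  have hi0b : (i0 : ℝ) * h < z * w + h := by
    have h1 : (i0 : ℝ) < (z : ℝ) * w / h + 1 := Nat.ceil_lt_add_one
      (div_nonneg (mul_nonneg (Nat.cast_nonneg z) hw0.le) hh0.le)
    have h2 := mul_lt_mul_of_pos_right h1 hh0
    rw [add_mul, div_mul_cancel₀ _ hh0.ne', one_mul] at h2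
    exact h2
  have hup : ∀ j < M, ((i0 + 2 * j : ℕ) : ℝ) * h + h < (z + 1) * w := by
    intro j hj
    have hj' : (j : ℝ) + 1 ≤ M := by exact_mod_cast hj
    push_cast
    have : (2 * (j : ℝ)) * h + 2 * h ≤ 2 * M * h := by nlinarith
    nlinarith
  have hlt : ∀ j < M, i0 + 2 * j < q ^ 1980 := by
    intro j hj
    have h1 := hup j hj
    have h2 : ((i0 + 2 * j : ℕ) : ℝ) * h < π := by linarith
    rw [hh, ← mul_div_assoc, div_lt_iff₀ (by positivity), mul_comm π] at h2
    have h3 := lt_of_mul_lt_mul_right h2 hpi.le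
    exact_mod_cast h3
  have hex : ∀ j : ℕ, ∃ t : Fin (NN m), j < M → (t : ℕ) % 4 = 0 ∧
      ((i0 + 2 * j : ℕ) : ℝ) * h < θ t ∧ θ t ≤ (((i0 + 2 * j : ℕ) : ℝ) + 1) * h := by
    intro j
    by_cases hj : j < M
    · obtain ⟨t, ht⟩ := hcell (i0 + 2 * j) (hlt j hj)
      exact ⟨t, fun _ => ht⟩
    · obtain ⟨t, _⟩ := hcell 0 (by positivity)
      exact ⟨t, fun h => absurd h hj⟩
  choose t ht using hex
  have hmono : ∀ j < M, ∀ j' < M, j < j' → θ (t j) + h ≤ θ (t j') := by
    intro j hj j' hj' hjj'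
    have h1 := (ht j hj).2.2
    have h2 := (ht j' hj').2.1
    have h3 : (j : ℝ) + 1 ≤ j' := by exact_mod_cast hjj'
    push_cast at h1 h2
    nlinarith
  have key := umeas_lower {y | ∃ t : Fin (NN m), (t : ℕ) % 4 = 0 ∧
        (z : ℝ) * w ≤ θ t ∧ θ t < ((z : ℝ) + 1) * w ∧
        0 < π - θ t - y ∧ π - θ t - y < δ} M (fun j => π - θ (t j) - δ) δ hδ0
    (by
      intro j hj
      have h1 := hup j hj
      have h2 := (ht j hj).2.2
      have h3 : δ ≤ 1 := by
        rw [hδ]; unfold qi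
        exact inv_le_one_of_one_le₀ (one_le_pow₀ hq1)
      nlinarith)
    (by
      intro j hj
      have h2 := (ht j hj).2.1
      have h3 : 0 ≤ ((i0 + 2 * j : ℕ) : ℝ) * h := mul_nonneg (Nat.cast_nonneg _) hh0.le
      linarith)
    (by
      intro j hj y hy1 hy2
      refine ⟨t j, (ht j hj).1, ?_, ?_, by linarith, by linarith⟩
      · have h2 := (ht j hj).2.1
        push_cast at h2
        nlinarith [mul_nonneg (Nat.cast_nonneg (α := ℝ) j) hh0.le]
      · have h1 := hup j hj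
        have h2 := (ht j hj).2.2
        nlinarith)
    (by
      intro j hj j' hj' hjj'
      have := hmono j hj j' hj' hjj'
      linarith)
  refine le_trans ?_ key
  rw [hM, hδ, le_div_iff₀ hpi]
  unfold qi
  push_cast
  have h1 : (q : ℝ) ^ 2530 = (q : ℝ) ^ 578 * (q : ℝ) ^ 1952 := by ring
  have h2 : 4 * (q : ℝ) ^ 578 * ((q : ℝ) ^ 2530)⁻¹ = ((q : ℝ) ^ 1952)⁻¹ * 4 := by
    rw [h1]
    field_simp
  rw [h2]
  exact mul_le_mul_of_nonneg_left hpi4.le (by positivity)

end Pool.Agent.Helper72.RA
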