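import Pool.Agent.Helper72.RA.Defs

set_option autoImplicit false

namespace Pool.Agent.Helper72.RA

open Real Finset MeasureTheory Filter

open scoped Classical

theorem sigma_arctan_lip {a b R : ℝ} (hab : a ≤ b) (ha : -R ≤ a) (hb : b ≤ R) :
    (b - a) / (1 + R ^ 2) ≤ arctan b - arctan a := by
  have hmono : MonotoneOn (fun x => arctan x - x / (1 + R ^ 2)) (Set.Icc a b) := by
    apply monotoneOn_of_deriv_nonneg (convex_Icc a b)
    · exact (continuous_arctan.sub (continuous_id.div_const _)).continuousOn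
    · intro x _
      exact ((hasDerivAt_arctan x).sub ((hasDerivAt_id x).div_const _)).differentiableAt.differentiableWithinAt
    · intro x hx
      rw [interior_Icc] at hx
      have hd : deriv (fun x => arctan x - x / (1 + R ^ 2)) x = 1 / (1 + x ^ 2) - 1 / (1 + R ^ 2) :=
        ((hasDerivAt_arctan x).sub ((hasDerivAt_id x).div_const _)).deriv
      rw [hd, sub_nonneg]
      apply one_div_le_one_div_of_le (by positivity)
      have h1 : x ^ 2 ≤ R ^ 2 := by
        apply sq_le_sq'
        · linarith [hx.1]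
        · linarith [hx.2]
      linarith
  have := hmono (Set.left_mem_Icc.2 hab) (Set.right_mem_Icc.2 hab) hab
  simp only at this
  rw [sub_div]
  linarith

theorem sigma_arctan_ten : arctan 10 ≤ π / 2 - 1 / 50 := by
  have h1 : arctan (10 : ℝ) = π / 2 - arctan (1 / 10) := by
    have := Real.arctan_inv_of_pos (x := (10 : ℝ)) (by norm_num)
    rw [one_div]
    linarith
  have h2 := sigma_arctan_lip (a := 0) (b := 1 / 10) (R := 1 / 10) (by norm_num) (by norm_num)
    le_rfl
  rw [arctan_zero] at h2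
  norm_num at h2 ⊢
  rw [h1]
  norm_num at *
  linarith

theorem st_SIGMA : ST_SIGMA := by
  intro β r0 r1 hβ0 hβπ hs hr0 hr01 hr1
  have hs0 : 0 < sin β := by linarith
  have hs1 : sin β ≤ 1 := sin_le_one β
  have hc1 : cos β ≤ 1 := cos_le_one β
  have hc0 : -1 ≤ cos β := neg_one_le_cos β
  set c0 : ℝ := (r0 - cos β) / sin β with hc0def
  set c1 : ℝ := (r1 - cos β) / sin β with hc1def
  have hlo : -10 ≤ c0 := by
    rw [hc0def, le_div_iff₀ hs0]
    nlinarith
  have hhi : c1 ≤ 10 := by
    rw [hc1def, div_le_iff₀ hs0]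
    nlinarith
  have h01 : c0 ≤ c1 := by
    rw [hc0def, hc1def]
    apply div_le_div_of_nonneg_right _ hs0.le
    linarith
  have hdiff : r1 - r0 ≤ c1 - c0 := by
    rw [hc0def, hc1def, ← sub_div, le_div_iff₀ hs0]
    nlinarith
  have hlip := sigma_arctan_lip h01 hlo hhi
  have hat := sigma_arctan_ten
  have hneg : arctan (-10) = - arctan 10 := arctan_neg 10
  refine ⟨π / 2 - arctan c1, π / 2 - arctan c0, ?_, ?_, ?_, ?_⟩
  · have : arctan c1 ≤ arctan 10 := arctan_mono hhi
    linarith
  · have : arctan (-10) ≤ arctan c0 := arctan_mono hlo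
    linarith
  · norm_num at hlip
    have : (r1 - r0) / 110 ≤ (c1 - c0) / 101 := by
      rw [div_le_div_iff₀ (by norm_num) (by norm_num)]
      nlinarith
    linarith
  · intro σ hx hy
    have hlt1 := arctan_lt_pi_div_two c1
    have hlt0 := neg_pi_div_two_lt_arctan c0
    have hσ : cos σ / sin σ = tan (π / 2 - σ) := by
      rw [tan_eq_sin_div_cos, sin_pi_div_two_sub, cos_pi_div_two_sub]
    have hm := strictMonoOn_tan.monotoneOn
    have hmem : π / 2 - σ ∈ Set.Ioo (-(π / 2)) (π / 2) := ⟨by linarith, by linarith⟩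
    have hmem0 : arctan c0 ∈ Set.Ioo (-(π / 2)) (π / 2) := ⟨by linarith, arctan_lt_pi_div_two c0⟩
    have hmem1 : arctan c1 ∈ Set.Ioo (-(π / 2)) (π / 2) :=
      ⟨by linarith [neg_pi_div_two_lt_arctan c1], arctan_lt_pi_div_two c1⟩
    have h0 : c0 ≤ tan (π / 2 - σ) := by
      have := hm hmem0 hmem (by linarith)
      rwa [tan_arctan] at this
    have h1 : tan (π / 2 - σ) ≤ c1 := by
      have := hm hmem hmem1 (by linarith)
      rwa [tan_arctan] at this
    rw [hσ]
    constructor
    · have : c0 * sin β ≤ tan (π / 2 - σ) * sin β := mul_le_mul_of_nonneg_right h0 hs0.le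
      rw [hc0def, div_mul_cancel₀ _ hs0.ne'] at this
      linarith
    · have : tan (π / 2 - σ) * sin β ≤ c1 * sin β := mul_le_mul_of_nonneg_right h1 hs0.le
      rw [hc1def, div_mul_cancel₀ _ hs0.ne'] at this
      linarith

end Pool.Agent.Helper72.RA
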