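import Pool.Agent.Helper72.RA.Defs2

set_option autoImplicit false

namespace Pool.Agent.Helper72.RA

open Real Finset MeasureTheory Filter

open scoped Classical

theorem sums_high_le {q m : ℕ} (D : Lay q m) (F : ℕ → ℝ) (hF : ∀ u, 0 ≤ F u) :
    ∑ g ∈ univ.filter (fun g => high D g), F (D.lev g) ≤
      ∑ u ∈ (range (UU q + 1)).filter (fun u => u0 q ≤ u),
        ((q : ℝ) * m / Pl q u + 1) * F u := by
  have hmaps : ∀ g ∈ univ.filter (fun g => high D g),
      D.lev g ∈ (range (UU q + 1)).filter (fun u => u0 q ≤ u) := by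
    intro g hg
    rw [Finset.mem_filter] at hg
    rw [Finset.mem_filter, Finset.mem_range]
    exact ⟨Nat.lt_succ_of_le (D.lev_g g hg.2.1), hg.2.2⟩
  rw [← Finset.sum_fiberwise_of_maps_to hmaps]
  apply Finset.sum_le_sum
  intro u hu
  rw [Finset.mem_filter, Finset.mem_range] at hu
  have h1 : ∑ g ∈ (univ.filter (fun g => high D g)) with D.lev g = u, F (D.lev g) =
      (((univ.filter (fun g => high D g)).filter (fun g => D.lev g = u)).card : ℝ) * F u := by
    rw [← nsmul_eq_mul, ← Finset.sum_const]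
    apply Finset.sum_congr rfl
    intro g hg
    rw [Finset.mem_filter] at hg
    rw [hg.2]
  rw [h1]
  apply mul_le_mul_of_nonneg_right _ (hF u)
  refine le_trans ?_ (D.card_g2 u (Nat.le_of_lt_succ hu.1))
  have : ((univ.filter (fun g => high D g)).filter (fun g => D.lev g = u)).card ≤
      (univ.filter fun k => D.ty k = Ty.g ∧ D.lev k = u).card := by
    apply Finset.card_le_card
    intro g hg
    rw [Finset.mem_filter, Finset.mem_filter] at hg
    rw [Finset.mem_filter]
    exact ⟨Finset.mem_univ _, hg.1.2.1, hg.2⟩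
  exact_mod_cast this

theorem sums_qi_pos {q : ℕ} (hq : 0 < q) (k : ℕ) : 0 < qi q k := by
  unfold qi; positivity

theorem sums_qi_mul {q : ℕ} (hq : 0 < q) (a b : ℕ) : (q : ℝ) ^ a * qi q (a + b) = qi q b := by
  unfold qi
  have : (q : ℝ) ≠ 0 := by positivity
  rw [pow_add]
  field_simp

theorem sums_qi_add {q : ℕ} (a b : ℕ) : qi q a * qi q b = qi q (a + b) := by
  unfold qi
  rw [pow_add, mul_inv]

theorem sums_qi_le {q : ℕ} (hq : 0 < q) {a b : ℕ} (h : a ≤ b) : qi q b ≤ qi q a := by
  unfold qi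
  apply inv_anti₀ (by positivity)
  exact pow_le_pow_right₀ (by exact_mod_cast hq) h

theorem sums_qi_le_one {q : ℕ} (hq : 0 < q) (a : ℕ) : qi q a ≤ 1 := by
  have := sums_qi_le hq (Nat.zero_le a)
  simpa [qi] using this

end Pool.Agent.Helper72.RA
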